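import Mathlib
import Pool.Agent.Helper697.RepDefs

/-!
Uniform rep-cubes.  The notions of unit square of the grid (`square`), region of a finite set of
squares (`region`), edge-connectedness (`IsPolyomino`), surface of a cube (`cubeSurface`) and
folding onto a cube (`FoldsToCube`) are those of `Pool.Agent.Helper697.RepDefs`.
-/

namespace Pool.Agent.V11205.URC

open Pool.Agent.Helper697.Rep

/-- The four sides of a unit square of the grid, each given by its endpoints, traversed
counterclockwise. -/
def sides (c : ℤ × ℤ) : List ((ℤ × ℤ) × (ℤ × ℤ)) :=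
  [((c.1, c.2), (c.1 + 1, c.2)), ((c.1 + 1, c.2), (c.1 + 1, c.2 + 1)),
    ((c.1 + 1, c.2 + 1), (c.1, c.2 + 1)), ((c.1, c.2 + 1), (c.1, c.2))]

/-- The unit segment from `v` to `w` is a boundary side of the set `P` of unit squares: the square
on its left belongs to `P` and the square on its right does not. -/
def BdSide (P : Finset (ℤ × ℤ)) (v w : ℤ × ℤ) : Prop :=
  (∃ c ∈ P, (v, w) ∈ sides c) ∧ ¬ ∃ c ∈ P, (w, v) ∈ sides c

/-- The boundary of `P` is a simple closed curve: for some cyclic sequence `V` of pairwise
distinct lattice points, the boundary sides of `P` are exactly the segments joining cyclically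
consecutive points of `V`. -/
def SimpleBoundary (P : Finset (ℤ × ℤ)) : Prop :=
  ∃ V : List (ℤ × ℤ), V ≠ [] ∧ V.Nodup ∧ ∀ a b, BdSide P a b ↔ (a, b) ∈ V.zip (V.rotate 1)

/-- A polyomino: a nonempty finite set of unit squares of the grid, connected through shared
edges, whose boundary is a simple closed curve. -/
def IsPoly (P : Finset (ℤ × ℤ)) : Prop := IsPolyomino P ∧ SimpleBoundary P

/-- Congruence of plane figures; reflections are allowed. -/
def Congruent (A B : Set Plane) : Prop := ∃ e : Plane ≃ᵢ Plane, e '' A = B

/-- A face of the unit cube `[0, 1]^3`. -/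
def IsCubeFace (F : Set Space) : Prop :=
  ∃ i : Fin 3, F = {z | z ∈ cubeSurface 1 ∧ z i = 0} ∨ F = {z | z ∈ cubeSurface 1 ∧ z i = 1}

/-- `N` is an edge net of the unit cube: a hexomino that folds onto the surface of the unit cube,
one-to-one apart from identifications of boundary points, in such a way that each of its six
unit squares is carried isometrically onto a face of the cube. -/
def IsEdgeNet (N : Finset (ℤ × ℤ)) : Prop :=
  IsPoly N ∧ N.card = 6 ∧ ∃ f : Plane → Space, ContinuousOn f (region N) ∧
    f '' region N = cubeSurface 1 ∧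
    (∀ x ∈ interior (region N), ∀ y ∈ region N, f x = f y → x = y) ∧
    ∀ c ∈ N, (∀ x ∈ square c, ∀ y ∈ square c, dist (f x) (f y) = dist x y) ∧
      IsCubeFace (f '' square c)

/-- `P` is a uniform rep-cube of order `k` for `N`: `k ≥ 2`, `P` is a polyomino that is a net of
some cube, and `P` is partitioned into `k` polyominoes each of which is a net of some cube and is
congruent to `N`. -/
def IsUniformRepCube (N : Finset (ℤ × ℤ)) (k : ℕ) (P : Finset (ℤ × ℤ)) : Prop :=
  2 ≤ k ∧ IsPoly P ∧ FoldsToCube P ∧
    ∃ Q : Finset (Finset (ℤ × ℤ)), Q.card = k ∧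
      (∀ A ∈ Q, IsPoly A ∧ FoldsToCube A ∧ Congruent (region A) (region N)) ∧
      (∀ A ∈ Q, ∀ B ∈ Q, A ≠ B → Disjoint A B) ∧ Q.biUnion id = P

end Pool.Agent.V11205.URC
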