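import Mathlib
import Pool.Agent.Y211.RC.Check
import Pool.Agent.V11205.URC.Defs

/-! Symmetries of the square grid. -/

namespace Pool.Agent.V11205.URC

open Pool.Agent.Helper697.Rep

/-- a symmetry of the grid: a possible swap of the coordinates, followed by possible flips and a
translation -/
structure Sym where
  s : Bool
  f1 : Bool
  f2 : Bool
  t1 : ℤ
  t2 : ℤ

def cx (f : Bool) (t a : ℤ) : ℤ := if f then t - a - 1 else t + a

/-- action on squares -/
def Sym.cell (g : Sym) (c : ℤ × ℤ) : ℤ × ℤ :=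
  if g.s then (cx g.f1 g.t1 c.2, cx g.f2 g.t2 c.1) else (cx g.f1 g.t1 c.1, cx g.f2 g.t2 c.2)

noncomputable def rx (f : Bool) (t : ℤ) (a : ℝ) : ℝ := if f then t - a else t + a

noncomputable def rxi (f : Bool) (t : ℤ) (a : ℝ) : ℝ := if f then t - a else a - t

/-- action on the plane -/
noncomputable def Sym.pl (g : Sym) (x : Plane) : Plane :=
  if g.s then !₂[rx g.f1 g.t1 (x 1), rx g.f2 g.t2 (x 0)]
  else !₂[rx g.f1 g.t1 (x 0), rx g.f2 g.t2 (x 1)]

noncomputable def Sym.pli (g : Sym) (y : Plane) : Plane :=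
  if g.s then !₂[rxi g.f2 g.t2 (y 1), rxi g.f1 g.t1 (y 0)]
  else !₂[rxi g.f1 g.t1 (y 0), rxi g.f2 g.t2 (y 1)]

lemma rxi_rx (f : Bool) (t : ℤ) (a : ℝ) : rxi f t (rx f t a) = a := by
  cases f <;> simp [rx, rxi]

lemma rx_rxi (f : Bool) (t : ℤ) (a : ℝ) : rx f t (rxi f t a) = a := by
  cases f <;> simp [rx, rxi]

lemma pli_pl (g : Sym) (x : Plane) : g.pli (g.pl x) = x := by
  unfold Sym.pli Sym.pl
  split_ifs <;> ext i <;> fin_cases i <;> simp [rxi_rx]

lemma pl_pli (g : Sym) (x : Plane) : g.pl (g.pli x) = x := by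
  unfold Sym.pli Sym.pl
  split_ifs <;> ext i <;> fin_cases i <;> simp [rx_rxi]

lemma rx_sub_sq (f : Bool) (t : ℤ) (a b : ℝ) : (rx f t a - rx f t b) ^ 2 = (a - b) ^ 2 := by
  cases f <;> simp [rx]; ring

lemma pl_isometry (g : Sym) : Isometry g.pl := by
  refine Isometry.of_dist_eq fun x y => ?_
  rw [EuclideanSpace.dist_eq, EuclideanSpace.dist_eq, Fin.sum_univ_two, Fin.sum_univ_two]
  simp only [Real.dist_eq, sq_abs]
  unfold Sym.pl
  split_ifs
  · simp only [PiLp.toLp_apply, Matrix.cons_val_zero, Matrix.cons_val_one, rx_sub_sq]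
    rw [add_comm]
  · simp only [PiLp.toLp_apply, Matrix.cons_val_zero, Matrix.cons_val_one, rx_sub_sq]

/-- the symmetry as an isometry of the plane -/
noncomputable def Sym.equiv (g : Sym) : Plane ≃ᵢ Plane :=
  ⟨⟨g.pl, g.pli, pli_pl g, pl_pli g⟩, pl_isometry g⟩

lemma rx_mem (f : Bool) (t c : ℤ) (a : ℝ) :
    ((cx f t c : ℤ) : ℝ) ≤ rx f t a ∧ rx f t a ≤ ((cx f t c : ℤ) : ℝ) + 1 ↔
      (c : ℝ) ≤ a ∧ a ≤ (c : ℝ) + 1 := by
  cases f
  · simp only [cx, rx, Bool.false_eq_true, if_false]; push_cast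
    constructor <;> rintro ⟨h1, h2⟩ <;> constructor <;> linarith
  · simp only [cx, rx, if_true]; push_cast
    constructor <;> rintro ⟨h1, h2⟩ <;> constructor <;> linarith

lemma pl_mem_square (g : Sym) (c : ℤ × ℤ) (x : Plane) :
    g.pl x ∈ square (g.cell c) ↔ x ∈ square c := by
  unfold square Sym.pl Sym.cell
  split_ifs
  · simp only [Set.mem_setOf_eq, PiLp.toLp_apply, Matrix.cons_val_zero, Matrix.cons_val_one, rx_mem]
    tauto
  · simp only [Set.mem_setOf_eq, PiLp.toLp_apply, Matrix.cons_val_zero, Matrix.cons_val_one, rx_mem]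

lemma region_image (g : Sym) (S : Finset (ℤ × ℤ)) :
    g.equiv '' region S = region (S.image g.cell) := by
  ext y
  simp only [region, Set.mem_image, Set.mem_iUnion, Finset.mem_image]
  constructor
  · rintro ⟨x, ⟨c, hc, hx⟩, rfl⟩
    exact ⟨g.cell c, ⟨c, hc, rfl⟩, (pl_mem_square g c x).mpr hx⟩
  · rintro ⟨d, ⟨c, hc, rfl⟩, hy⟩
    refine ⟨g.pli y, ⟨c, hc, ?_⟩, pl_pli g y⟩
    rw [← pl_mem_square g c, pl_pli]; exact hy

lemma congr_image (g : Sym) (S : Finset (ℤ × ℤ)) :
    Congruent (region S) (region (S.image g.cell)) := ⟨g.equiv, region_image g S⟩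

lemma Congruent.symm {A B : Set Plane} (h : Congruent A B) : Congruent B A := by
  obtain ⟨e, rfl⟩ := h
  refine ⟨e.symm, ?_⟩
  rw [← Set.image_comp]
  have : (e.symm : Plane → Plane) ∘ e = id := by ext x; simp
  rw [this, Set.image_id]

lemma Congruent.trans {A B C : Set Plane} (h : Congruent A B) (h' : Congruent B C) :
    Congruent A C := by
  obtain ⟨e, rfl⟩ := h
  obtain ⟨e', rfl⟩ := h'
  exact ⟨e.trans e', by rw [← Set.image_comp]; rfl⟩

/-! ### Boundaries -/

/-- code of a lattice point -/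
def cv (v : ℤ × ℤ) : ℕ := (v.1 + 64).toNat + 128 * (v.2 + 64).toNat

def InR (v : ℤ × ℤ) : Prop := -64 ≤ v.1 ∧ v.1 < 64 ∧ -64 ≤ v.2 ∧ v.2 < 64

def inRB (v : ℤ × ℤ) : Bool := decide (-60 ≤ v.1) && (decide (v.1 < 60) && (decide (-60 ≤ v.2) && decide (v.2 < 60)))

lemma cv_inj {v w : ℤ × ℤ} (hv : InR v) (hw : InR w) (h : cv v = cv w) : v = w := by
  obtain ⟨a1, a2, a3, a4⟩ := hv
  obtain ⟨b1, b2, b3, b4⟩ := hw
  unfold cv at h
  ext <;> omega

lemma cv_lt {v : ℤ × ℤ} (hv : InR v) : cv v < 16384 := by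
  obtain ⟨a1, a2, a3, a4⟩ := hv
  unfold cv; omega

/-- code of a directed segment -/
def ce (e : (ℤ × ℤ) × (ℤ × ℤ)) : ℕ := cv e.1 + 16384 * cv e.2

lemma ce_inj {e e' : (ℤ × ℤ) × (ℤ × ℤ)} (h1 : InR e.1) (h2 : InR e.2) (h1' : InR e'.1)
    (h2' : InR e'.2) (h : ce e = ce e') : e = e' := by
  have a := cv_lt h1
  have b := cv_lt h1'
  unfold ce at h
  have h3 : cv e.1 = cv e'.1 := by omega
  have h4 : cv e.2 = cv e'.2 := by omega
  exact Prod.ext (cv_inj h1 h1' h3) (cv_inj h2 h2' h4)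

def memN (x : ℕ) (l : List ℕ) : Bool := l.any (Nat.beq x)

lemma memN_iff {x : ℕ} {l : List ℕ} : memN x l = true ↔ x ∈ l := by
  unfold memN
  rw [List.any_eq_true]
  constructor
  · rintro ⟨y, hy, h⟩
    rw [Nat.eq_of_beq_eq_true h]; exact hy
  · intro h
    exact ⟨x, h, Nat.beq_refl x⟩

/-- the square on the left of a directed side -/
def lc (e : (ℤ × ℤ) × (ℤ × ℤ)) : ℤ × ℤ :=
  if e.2.1 = e.1.1 + 1 then e.1 else if e.2.2 = e.1.2 + 1 then (e.1.1 - 1, e.1.2)
  else if e.2.1 = e.1.1 - 1 then (e.1.1 - 1, e.1.2 - 1) else (e.1.1, e.1.2 - 1)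

/-- `V`: the boundary; `ZC`: the codes of its sides; `LC`: the codes of the squares -/
def bdB (L V : List (ℤ × ℤ)) (LC ZC VC : List ℕ) : Bool :=
  !V.isEmpty && (L.all inRB && (V.all inRB && (Pool.Agent.Y211.RC.eqB (V.map cv) VC &&
  (Pool.Agent.Y211.RC.nodupB VC && (Pool.Agent.Y211.RC.eqB (L.map cv) LC &&
  (Pool.Agent.Y211.RC.eqB ((V.zip (V.rotate 1)).map ce) ZC &&
  ((V.zip (V.rotate 1)).all (fun e => decide (e ∈ sides (lc e)) && memN (cv (lc e)) LC) &&
  L.all (fun c =>
    (memN (ce ((c.1, c.2), (c.1 + 1, c.2))) ZC != memN (cv (c.1, c.2 - 1)) LC) &&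
    ((memN (ce ((c.1 + 1, c.2), (c.1 + 1, c.2 + 1))) ZC != memN (cv (c.1 + 1, c.2)) LC) &&
    ((memN (ce ((c.1 + 1, c.2 + 1), (c.1, c.2 + 1))) ZC != memN (cv (c.1, c.2 + 1)) LC) &&
    (memN (ce ((c.1, c.2 + 1), (c.1, c.2))) ZC != memN (cv (c.1 - 1, c.2)) LC)))))))))))

lemma bne_aux {a b : Bool} (h : (a != b) = true) : a = true ↔ b ≠ true := by
  cases a <;> cases b <;> simp_all

theorem simpleBoundary_of {L V : List (ℤ × ℤ)} {LC ZC VC : List ℕ} (h : bdB L V LC ZC VC = true) :
    SimpleBoundary L.toFinset := by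
  simp only [bdB, Bool.and_eq_true, decide_eq_true_eq, List.all_eq_true] at h
  obtain ⟨h1, h2, h3, h4, h5, h6, h7, h8, h9⟩ := h
  have hV : V ≠ [] := by
    intro hV
    rw [hV] at h1
    simp at h1
  have h4' := Pool.Agent.Y211.RC.eqB_eq h4
  have h6' := Pool.Agent.Y211.RC.eqB_eq h6
  have h7' := Pool.Agent.Y211.RC.eqB_eq h7
  have hnd : V.Nodup := by
    have := Pool.Agent.Y211.RC.nodupB_nodup h5
    rw [← h4'] at this
    exact this.of_map _
  have rB : ∀ v, inRB v = true → (-60 ≤ v.1 ∧ v.1 < 60 ∧ -60 ≤ v.2 ∧ v.2 < 60) := by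
    intro v hv
    simpa only [inRB, Bool.and_eq_true, decide_eq_true_eq] using hv
  have hLr : ∀ c ∈ L, InR c := by
    intro c hc
    have := rB c (h2 c hc)
    unfold InR; omega
  have hmemL : ∀ v, InR v → (memN (cv v) LC = true ↔ v ∈ L) := by
    intro v hv
    rw [memN_iff, ← h6', List.mem_map]
    constructor
    · rintro ⟨w, hw, he⟩
      rw [← cv_inj (hLr w hw) hv he]; exact hw
    · intro h; exact ⟨v, h, rfl⟩
  have hZr : ∀ e ∈ V.zip (V.rotate 1), InR e.1 ∧ InR e.2 := by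
    rintro ⟨a, b⟩ he
    have := List.of_mem_zip he
    have ha := rB a (h3 a this.1)
    have hb := rB b (h3 b (List.mem_rotate.mp this.2))
    unfold InR; simp only; omega
  have hmemZ : ∀ e : (ℤ × ℤ) × (ℤ × ℤ), InR e.1 → InR e.2 →
      (memN (ce e) ZC = true ↔ e ∈ V.zip (V.rotate 1)) := by
    intro e he1 he2
    rw [memN_iff, ← h7', List.mem_map]
    constructor
    · rintro ⟨w, hw, he⟩
      rw [← ce_inj (hZr w hw).1 (hZr w hw).2 he1 he2 he]; exact hw
    · intro h; exact ⟨e, h, rfl⟩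
  refine ⟨V, hV, hnd, fun a b => ?_⟩
  -- the central fact: a side of a square of `L` is on the boundary iff the neighbour is missing
  have key : ∀ c ∈ L, ∀ e ∈ sides c, (e ∈ V.zip (V.rotate 1) ↔ ¬ ∃ d ∈ L.toFinset, (e.2, e.1) ∈ sides d) := by
    intro c hc e he
    have hr := rB c (h2 c hc)
    obtain ⟨x, y⟩ := c
    simp only at hr
    have h10 := h9 _ hc
    obtain ⟨k0, k1, k2, k3⟩ := h10
    simp only at k0 k1 k2 k3
    unfold sides at he
    simp only [List.mem_cons, List.not_mem_nil, or_false] at he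
    rcases he with rfl | rfl | rfl | rfl
    · have := bne_aux k0
      rw [hmemZ _ (by unfold InR; simp only; omega) (by unfold InR; simp only; omega), ne_eq,
        hmemL _ (by unfold InR; simp only; omega)] at this
      rw [this, not_iff_not]
      constructor
      · intro h; exact ⟨_, List.mem_toFinset.mpr h, by simp [sides]⟩
      · rintro ⟨⟨p, q⟩, hd, hs⟩
        simp only [sides, List.mem_cons, List.not_mem_nil, or_false, Prod.mk.injEq] at hs
        have e1 : p = x ∧ q = y - 1 := by omega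
        rw [e1.1, e1.2] at hd
        exact List.mem_toFinset.mp hd
    · have := bne_aux k1
      rw [hmemZ _ (by unfold InR; simp only; omega) (by unfold InR; simp only; omega), ne_eq,
        hmemL _ (by unfold InR; simp only; omega)] at this
      rw [this, not_iff_not]
      constructor
      · intro h; exact ⟨_, List.mem_toFinset.mpr h, by simp [sides]⟩
      · rintro ⟨⟨p, q⟩, hd, hs⟩
        simp only [sides, List.mem_cons, List.not_mem_nil, or_false, Prod.mk.injEq] at hs
        have e1 : p = x + 1 ∧ q = y := by omega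
        rw [e1.1, e1.2] at hd
        exact List.mem_toFinset.mp hd
    · have := bne_aux k2
      rw [hmemZ _ (by unfold InR; simp only; omega) (by unfold InR; simp only; omega), ne_eq,
        hmemL _ (by unfold InR; simp only; omega)] at this
      rw [this, not_iff_not]
      constructor
      · intro h; exact ⟨_, List.mem_toFinset.mpr h, by simp [sides]⟩
      · rintro ⟨⟨p, q⟩, hd, hs⟩
        simp only [sides, List.mem_cons, List.not_mem_nil, or_false, Prod.mk.injEq] at hs
        have e1 : p = x ∧ q = y + 1 := by omega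
        rw [e1.1, e1.2] at hd
        exact List.mem_toFinset.mp hd
    · have := bne_aux k3
      rw [hmemZ _ (by unfold InR; simp only; omega) (by unfold InR; simp only; omega), ne_eq,
        hmemL _ (by unfold InR; simp only; omega)] at this
      rw [this, not_iff_not]
      constructor
      · intro h; exact ⟨_, List.mem_toFinset.mpr h, by simp [sides]⟩
      · rintro ⟨⟨p, q⟩, hd, hs⟩
        simp only [sides, List.mem_cons, List.not_mem_nil, or_false, Prod.mk.injEq] at hs
        have e1 : p = x - 1 ∧ q = y := by omega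
        rw [e1.1, e1.2] at hd
        exact List.mem_toFinset.mp hd
  unfold BdSide
  constructor
  · rintro ⟨⟨c, hc, hs⟩, hn⟩
    exact (key c (List.mem_toFinset.mp hc) _ hs).mpr hn
  · intro he
    have h10 := h8 _ he
    have hlr : InR (lc (a, b)) := by
      have := List.of_mem_zip he
      have ha := rB a (h3 a this.1)
      have hb := rB b (h3 b (List.mem_rotate.mp this.2))
      unfold lc InR
      split_ifs <;> simp only <;> omega
    rw [hmemL _ hlr] at h10
    refine ⟨⟨_, List.mem_toFinset.mpr h10.2, h10.1⟩, ?_⟩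
    exact (key _ h10.2 _ h10.1).mp he

end Pool.Agent.V11205.URC
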