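import Mathlib
import Pool.Agent.Helper697.RepFinal
import Pool.Agent.V11205.URC.Sym

/-! Enumeration of the edge nets of the unit cube. -/

namespace Pool.Agent.V11205.URC

open Pool.Agent.Helper697.Rep

/-- a frame: codes of the images of three corners of a square -/
abbrev Fr := ℕ × ℕ × ℕ

def kk (f : Fr) : ℕ := 7 ^^^ f.2.1 ^^^ f.2.2
def dd (f : Fr) : ℕ := f.1 ^^^ f.2.1 ^^^ f.2.2
def mR (f : Fr) : Fr := (f.2.1, f.2.1 ^^^ kk f, dd f)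
def mU (f : Fr) : Fr := (f.2.2, dd f, f.2.2 ^^^ kk f)
def mL (f : Fr) : Fr := (f.1 ^^^ kk f, f.1, f.2.2 ^^^ kk f)
def mD (f : Fr) : Fr := (f.1 ^^^ kk f, f.2.1 ^^^ kk f, f.1)
def face (f : Fr) : ℕ := kk f + 8 * (f.1 &&& kk f)

def dirs : List ((ℤ × ℤ) × (Fr → Fr)) := [((1, 0), mR), ((0, 1), mU), ((-1, 0), mL), ((0, -1), mD)]

abbrev St := List ((ℤ × ℤ) × Fr)

def okq (q : ℤ × ℤ) : Bool := decide (0 < q.2) || (decide (q.2 = 0) && decide (0 ≤ q.1))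

def grow (st : St) : List St :=
  st.flatMap fun s => dirs.filterMap fun dm =>
    if okq (s.1 + dm.1) && ((st.all fun t => decide (t.1 ≠ s.1 + dm.1)) &&
      (st.all fun t => !(Nat.beq (face t.2) (face (dm.2 s.2))))) then
      some ((s.1 + dm.1, dm.2 s.2) :: st) else none

def gen (f : Fr) : ℕ → List St
  | 0 => [[((0, 0), f)]]
  | n + 1 => (gen f n).flatMap grow

lemma mem_grow {st : St} {s : (ℤ × ℤ) × Fr} {dm : (ℤ × ℤ) × (Fr → Fr)} (hs : s ∈ st)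
    (hdm : dm ∈ dirs) (h1 : okq (s.1 + dm.1) = true) (h2 : ∀ t ∈ st, t.1 ≠ s.1 + dm.1)
    (h3 : ∀ t ∈ st, face t.2 ≠ face (dm.2 s.2)) : (s.1 + dm.1, dm.2 s.2) :: st ∈ grow st := by
  unfold grow
  rw [List.mem_flatMap]
  refine ⟨s, hs, ?_⟩
  rw [List.mem_filterMap]
  refine ⟨dm, hdm, ?_⟩
  rw [if_pos]
  simp only [Bool.and_eq_true, List.all_eq_true, decide_eq_true_eq, Bool.not_eq_true']
  refine ⟨h1, h2, fun t ht => ?_⟩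
  have := h3 t ht
  cases hb : Nat.beq (face t.2) (face (dm.2 s.2))
  · rfl
  · exact absurd (Nat.eq_of_beq_eq_true hb) this

/-- an entry: a code, a net, a symmetry and the image of the net -/
structure Entry where
  code : ℕ
  N : List (ℤ × ℤ)
  g : Sym
  L : List (ℤ × ℤ)

def table : List Entry :=
[⟨0x201e0020, [(0, 0), (0, 1), (0, 2), (1, 1), (2, 1), (3, 1)], ⟨false, false, false, 0, 0⟩, [(0, 0), (0, 1), (1, 1), (2, 1), (3, 1), (0, 2)]⟩,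
 ⟨0x2003c020, [(0, 0), (0, 1), (0, 2), (1, 1), (2, 1), (3, 1)], ⟨false, true, false, 1, 0⟩, [(0, 0), (-3, 1), (-2, 1), (-1, 1), (0, 1), (0, 2)]⟩,
 ⟨0x400400400e0, [(0, 0), (0, 1), (0, 2), (1, 1), (2, 1), (3, 1)], ⟨true, false, false, 0, 0⟩, [(0, 0), (1, 0), (2, 0), (1, 1), (1, 2), (1, 3)]⟩,
 ⟨0x70020020020, [(0, 0), (0, 1), (0, 2), (1, 1), (2, 1), (3, 1)], ⟨true, false, true, -1, 4⟩, [(0, 0), (0, 1), (0, 2), (-1, 3), (0, 3), (1, 3)]⟩,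
 ⟨0x40040060020020, [(0, 0), (0, 1), (0, 2), (1, 2), (1, 3), (1, 4)], ⟨false, false, false, 0, 0⟩, [(0, 0), (0, 1), (0, 2), (1, 2), (1, 3), (1, 4)]⟩,
 ⟨0x10010030020020, [(0, 0), (0, 1), (0, 2), (1, 2), (1, 3), (1, 4)], ⟨false, false, true, -1, 5⟩, [(0, 0), (0, 1), (-1, 2), (0, 2), (-1, 3), (-1, 4)]⟩,
 ⟨0x3800e0, [(0, 0), (0, 1), (0, 2), (1, 2), (1, 3), (1, 4)], ⟨true, false, false, 0, 0⟩, [(0, 0), (1, 0), (2, 0), (2, 1), (3, 1), (4, 1)]⟩,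
 ⟨0x380e0, [(0, 0), (0, 1), (0, 2), (1, 2), (1, 3), (1, 4)], ⟨true, false, true, -2, 2⟩, [(0, 0), (1, 0), (2, 0), (-2, 1), (-1, 1), (0, 1)]⟩,
 ⟨0x400400e0020, [(0, 0), (0, 1), (1, 1), (1, 2), (1, 3), (2, 1)], ⟨false, false, false, 0, 0⟩, [(0, 0), (0, 1), (1, 1), (2, 1), (1, 2), (1, 3)]⟩,
 ⟨0x10070020020, [(0, 0), (0, 1), (1, 1), (1, 2), (1, 3), (2, 1)], ⟨false, false, true, -1, 4⟩, [(0, 0), (0, 1), (-1, 2), (0, 2), (1, 2), (-1, 3)]⟩,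
 ⟨0x10010038020, [(0, 0), (0, 1), (1, 1), (1, 2), (1, 3), (2, 1)], ⟨false, true, false, 1, 0⟩, [(0, 0), (-2, 1), (-1, 1), (0, 1), (-1, 2), (-1, 3)]⟩,
 ⟨0x40070020020, [(0, 0), (0, 1), (1, 1), (1, 2), (1, 3), (2, 1)], ⟨false, true, true, 2, 4⟩, [(0, 0), (0, 1), (-1, 2), (0, 2), (1, 2), (1, 3)]⟩,
 ⟨0x401c0060, [(0, 0), (0, 1), (1, 1), (1, 2), (1, 3), (2, 1)], ⟨true, false, false, 0, 0⟩, [(0, 0), (1, 0), (1, 1), (2, 1), (3, 1), (1, 2)]⟩,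
 ⟨0x300e0020, [(0, 0), (0, 1), (1, 1), (1, 2), (1, 3), (2, 1)], ⟨true, false, true, -1, 3⟩, [(0, 0), (0, 1), (1, 1), (2, 1), (-1, 2), (0, 2)]⟩,
 ⟨0x20038060, [(0, 0), (0, 1), (1, 1), (1, 2), (1, 3), (2, 1)], ⟨true, true, false, 2, 0⟩, [(0, 0), (1, 0), (-2, 1), (-1, 1), (0, 1), (0, 2)]⟩,
 ⟨0x60038020, [(0, 0), (0, 1), (1, 1), (1, 2), (1, 3), (2, 1)], ⟨true, true, true, 2, 3⟩, [(0, 0), (-2, 1), (-1, 1), (0, 1), (0, 2), (1, 2)]⟩,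
 ⟨0x400c0060020, [(0, 0), (0, 1), (1, 1), (1, 2), (1, 3), (2, 2)], ⟨false, false, false, 0, 0⟩, [(0, 0), (0, 1), (1, 1), (1, 2), (2, 2), (1, 3)]⟩,
 ⟨0x10030060020, [(0, 0), (0, 1), (1, 1), (1, 2), (1, 3), (2, 2)], ⟨false, false, true, -1, 4⟩, [(0, 0), (0, 1), (1, 1), (-1, 2), (0, 2), (-1, 3)]⟩,
 ⟨0x10018030020, [(0, 0), (0, 1), (1, 1), (1, 2), (1, 3), (2, 2)], ⟨false, true, false, 1, 0⟩, [(0, 0), (-1, 1), (0, 1), (-2, 2), (-1, 2), (-1, 3)]⟩,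
 ⟨0x40060030020, [(0, 0), (0, 1), (1, 1), (1, 2), (1, 3), (2, 2)], ⟨false, true, true, 2, 4⟩, [(0, 0), (-1, 1), (0, 1), (0, 2), (1, 2), (1, 3)]⟩,
 ⟨0x801c0060, [(0, 0), (0, 1), (1, 1), (1, 2), (1, 3), (2, 2)], ⟨true, false, false, 0, 0⟩, [(0, 0), (1, 0), (1, 1), (2, 1), (3, 1), (2, 2)]⟩,
 ⟨0x18070020, [(0, 0), (0, 1), (1, 1), (1, 2), (1, 3), (2, 2)], ⟨true, false, true, -2, 3⟩, [(0, 0), (-1, 1), (0, 1), (1, 1), (-2, 2), (-1, 2)]⟩,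
 ⟨0x10038060, [(0, 0), (0, 1), (1, 1), (1, 2), (1, 3), (2, 2)], ⟨true, true, false, 2, 0⟩, [(0, 0), (1, 0), (-2, 1), (-1, 1), (0, 1), (-1, 2)]⟩,
 ⟨0xc0070020, [(0, 0), (0, 1), (1, 1), (1, 2), (1, 3), (2, 2)], ⟨true, true, true, 3, 3⟩, [(0, 0), (-1, 1), (0, 1), (1, 1), (1, 2), (2, 2)]⟩,
 ⟨0xc0040060020, [(0, 0), (0, 1), (1, 1), (1, 2), (1, 3), (2, 3)], ⟨false, false, false, 0, 0⟩, [(0, 0), (0, 1), (1, 1), (1, 2), (1, 3), (2, 3)]⟩,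
 ⟨0x10030020060, [(0, 0), (0, 1), (1, 1), (1, 2), (1, 3), (2, 3)], ⟨false, false, true, -1, 4⟩, [(0, 0), (1, 0), (0, 1), (-1, 2), (0, 2), (-1, 3)]⟩,
 ⟨0x18010030020, [(0, 0), (0, 1), (1, 1), (1, 2), (1, 3), (2, 3)], ⟨false, true, false, 1, 0⟩, [(0, 0), (-1, 1), (0, 1), (-1, 2), (-2, 3), (-1, 3)]⟩,
 ⟨0x800c0040060, [(0, 0), (0, 1), (1, 1), (1, 2), (1, 3), (2, 3)], ⟨false, true, true, 3, 4⟩, [(0, 0), (1, 0), (1, 1), (1, 2), (2, 2), (2, 3)]⟩,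
 ⟨0x1001c0060, [(0, 0), (0, 1), (1, 1), (1, 2), (1, 3), (2, 3)], ⟨true, false, false, 0, 0⟩, [(0, 0), (1, 0), (1, 1), (2, 1), (3, 1), (3, 2)]⟩,
 ⟨0xc038020, [(0, 0), (0, 1), (1, 1), (1, 2), (1, 3), (2, 3)], ⟨true, false, true, -3, 3⟩, [(0, 0), (-2, 1), (-1, 1), (0, 1), (-3, 2), (-2, 2)]⟩,
 ⟨0x8038060, [(0, 0), (0, 1), (1, 1), (1, 2), (1, 3), (2, 3)], ⟨true, true, false, 2, 0⟩, [(0, 0), (1, 0), (-2, 1), (-1, 1), (0, 1), (-2, 2)]⟩,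
 ⟨0x1800e0020, [(0, 0), (0, 1), (1, 1), (1, 2), (1, 3), (2, 3)], ⟨true, true, true, 4, 3⟩, [(0, 0), (0, 1), (1, 1), (2, 1), (2, 2), (3, 2)]⟩,
 ⟨0x401e0020, [(0, 0), (0, 1), (1, 1), (1, 2), (2, 1), (3, 1)], ⟨false, false, false, 0, 0⟩, [(0, 0), (0, 1), (1, 1), (2, 1), (3, 1), (1, 2)]⟩,
 ⟨0x100f0020, [(0, 0), (0, 1), (1, 1), (1, 2), (2, 1), (3, 1)], ⟨false, false, true, -1, 3⟩, [(0, 0), (-1, 1), (0, 1), (1, 1), (2, 1), (-1, 2)]⟩,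
 ⟨0x1003c020, [(0, 0), (0, 1), (1, 1), (1, 2), (2, 1), (3, 1)], ⟨false, true, false, 1, 0⟩, [(0, 0), (-3, 1), (-2, 1), (-1, 1), (0, 1), (-1, 2)]⟩,
 ⟨0x40078020, [(0, 0), (0, 1), (1, 1), (1, 2), (2, 1), (3, 1)], ⟨false, true, true, 2, 3⟩, [(0, 0), (-2, 1), (-1, 1), (0, 1), (1, 1), (1, 2)]⟩,
 ⟨0x400400c0060, [(0, 0), (0, 1), (1, 1), (1, 2), (2, 1), (3, 1)], ⟨true, false, false, 0, 0⟩, [(0, 0), (1, 0), (1, 1), (2, 1), (1, 2), (1, 3)]⟩,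
 ⟨0x30060020020, [(0, 0), (0, 1), (1, 1), (1, 2), (2, 1), (3, 1)], ⟨true, false, true, -1, 4⟩, [(0, 0), (0, 1), (0, 2), (1, 2), (-1, 3), (0, 3)]⟩,
 ⟨0x20020030060, [(0, 0), (0, 1), (1, 1), (1, 2), (2, 1), (3, 1)], ⟨true, true, false, 2, 0⟩, [(0, 0), (1, 0), (-1, 1), (0, 1), (0, 2), (0, 3)]⟩,
 ⟨0x60030020020, [(0, 0), (0, 1), (1, 1), (1, 2), (2, 1), (3, 1)], ⟨true, true, true, 2, 4⟩, [(0, 0), (0, 1), (-1, 2), (0, 2), (0, 3), (1, 3)]⟩,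
 ⟨0x800c0060020, [(0, 0), (0, 1), (1, 1), (1, 2), (2, 2), (2, 3)], ⟨false, false, false, 0, 0⟩, [(0, 0), (0, 1), (1, 1), (1, 2), (2, 2), (2, 3)]⟩,
 ⟨0x8018030020, [(0, 0), (0, 1), (1, 1), (1, 2), (2, 2), (2, 3)], ⟨false, false, true, -2, 4⟩, [(0, 0), (-1, 1), (0, 1), (-2, 2), (-1, 2), (-2, 3)]⟩,
 ⟨0x1800c0060, [(0, 0), (0, 1), (1, 1), (1, 2), (2, 2), (2, 3)], ⟨true, false, false, 0, 0⟩, [(0, 0), (1, 0), (1, 1), (2, 1), (2, 2), (3, 2)]⟩,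
 ⟨0x18030060, [(0, 0), (0, 1), (1, 1), (1, 2), (2, 2), (2, 3)], ⟨true, false, true, -2, 3⟩, [(0, 0), (1, 0), (-1, 1), (0, 1), (-2, 2), (-1, 2)]⟩,
 ⟨0x801e0020, [(0, 0), (0, 1), (1, 1), (2, 1), (2, 2), (3, 1)], ⟨false, false, false, 0, 0⟩, [(0, 0), (0, 1), (1, 1), (2, 1), (3, 1), (2, 2)]⟩,
 ⟨0x8078020, [(0, 0), (0, 1), (1, 1), (2, 1), (2, 2), (3, 1)], ⟨false, false, true, -2, 3⟩, [(0, 0), (-2, 1), (-1, 1), (0, 1), (1, 1), (-2, 2)]⟩,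
 ⟨0x803c020, [(0, 0), (0, 1), (1, 1), (2, 1), (2, 2), (3, 1)], ⟨false, true, false, 1, 0⟩, [(0, 0), (-3, 1), (-2, 1), (-1, 1), (0, 1), (-2, 2)]⟩,
 ⟨0x800f0020, [(0, 0), (0, 1), (1, 1), (2, 1), (2, 2), (3, 1)], ⟨false, true, true, 3, 3⟩, [(0, 0), (-1, 1), (0, 1), (1, 1), (2, 1), (2, 2)]⟩,
 ⟨0x400c0040060, [(0, 0), (0, 1), (1, 1), (2, 1), (2, 2), (3, 1)], ⟨true, false, false, 0, 0⟩, [(0, 0), (1, 0), (1, 1), (1, 2), (2, 2), (1, 3)]⟩,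
 ⟨0x30020060020, [(0, 0), (0, 1), (1, 1), (2, 1), (2, 2), (3, 1)], ⟨true, false, true, -1, 4⟩, [(0, 0), (0, 1), (1, 1), (0, 2), (-1, 3), (0, 3)]⟩,
 ⟨0x20030020060, [(0, 0), (0, 1), (1, 1), (2, 1), (2, 2), (3, 1)], ⟨true, true, false, 2, 0⟩, [(0, 0), (1, 0), (0, 1), (-1, 2), (0, 2), (0, 3)]⟩,
 ⟨0x60020030020, [(0, 0), (0, 1), (1, 1), (2, 1), (2, 2), (3, 1)], ⟨true, true, true, 2, 4⟩, [(0, 0), (-1, 1), (0, 1), (0, 2), (0, 3), (1, 3)]⟩,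
 ⟨0x1001e0020, [(0, 0), (0, 1), (1, 1), (2, 1), (3, 1), (3, 2)], ⟨false, false, false, 0, 0⟩, [(0, 0), (0, 1), (1, 1), (2, 1), (3, 1), (3, 2)]⟩,
 ⟨0x403c020, [(0, 0), (0, 1), (1, 1), (2, 1), (3, 1), (3, 2)], ⟨false, false, true, -3, 3⟩, [(0, 0), (-3, 1), (-2, 1), (-1, 1), (0, 1), (-3, 2)]⟩,
 ⟨0xc0040040060, [(0, 0), (0, 1), (1, 1), (2, 1), (3, 1), (3, 2)], ⟨true, false, false, 0, 0⟩, [(0, 0), (1, 0), (1, 1), (1, 2), (1, 3), (2, 3)]⟩,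
 ⟨0x30020020060, [(0, 0), (0, 1), (1, 1), (2, 1), (3, 1), (3, 2)], ⟨true, false, true, -1, 4⟩, [(0, 0), (1, 0), (0, 1), (0, 2), (-1, 3), (0, 3)]⟩,
 ⟨0x20020070020, [(0, 1), (1, 0), (1, 1), (1, 2), (1, 3), (2, 1)], ⟨false, false, false, -1, 0⟩, [(0, 0), (-1, 1), (0, 1), (1, 1), (0, 2), (0, 3)]⟩,
 ⟨0x20070020020, [(0, 1), (1, 0), (1, 1), (1, 2), (1, 3), (2, 1)], ⟨false, false, true, -1, 4⟩, [(0, 0), (0, 1), (-1, 2), (0, 2), (1, 2), (0, 3)]⟩,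
 ⟨0x200f0020, [(0, 1), (1, 0), (1, 1), (1, 2), (1, 3), (2, 1)], ⟨true, false, false, -1, 0⟩, [(0, 0), (-1, 1), (0, 1), (1, 1), (2, 1), (0, 2)]⟩,
 ⟨0x20078020, [(0, 1), (1, 0), (1, 1), (1, 2), (1, 3), (2, 1)], ⟨true, true, false, 2, 0⟩, [(0, 0), (-2, 1), (-1, 1), (0, 1), (1, 1), (0, 2)]⟩,
 ⟨0x20060030020, [(0, 1), (1, 0), (1, 1), (1, 2), (1, 3), (2, 2)], ⟨false, false, false, -1, 0⟩, [(0, 0), (-1, 1), (0, 1), (0, 2), (1, 2), (0, 3)]⟩,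
 ⟨0x20030060020, [(0, 1), (1, 0), (1, 1), (1, 2), (1, 3), (2, 2)], ⟨false, false, true, -1, 4⟩, [(0, 0), (0, 1), (1, 1), (-1, 2), (0, 2), (0, 3)]⟩,
 ⟨0x400f0020, [(0, 1), (1, 0), (1, 1), (1, 2), (1, 3), (2, 2)], ⟨true, false, false, -1, 0⟩, [(0, 0), (-1, 1), (0, 1), (1, 1), (2, 1), (1, 2)]⟩,
 ⟨0x10078020, [(0, 1), (1, 0), (1, 1), (1, 2), (1, 3), (2, 2)], ⟨true, false, true, -2, 3⟩, [(0, 0), (-2, 1), (-1, 1), (0, 1), (1, 1), (-1, 2)]⟩]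

def code (st : St) : ℕ := st.foldl (fun a t => a + 2 ^ ((t.1.1 + 5).toNat + 12 * t.1.2.toNat)) 0

def leafOk (st : St) : Bool :=
  match table.find? (fun e => Nat.beq e.code (code st)) with
  | some e => st.all (fun t => decide (t.1 ∈ e.L))
  | none => false

def entryOk (e : Entry) : Bool :=
  Nat.beq e.L.length 6 && (e.N.all (fun c => decide (e.g.cell c ∈ e.L)) &&
    e.L.all (fun d => decide (d ∈ e.N.map e.g.cell)))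

lemma table_ok : (table.all entryOk) = true := by decide +kernel

lemma leaves_ok : ((gen (0, 1, 2) 5).all leafOk) = true := by decide +kernel

lemma leaf_sound {st : St} (h : leafOk st = true) : ∃ e ∈ table, ∀ t ∈ st, t.1 ∈ e.L := by
  unfold leafOk at h
  split at h
  · rename_i e he
    refine ⟨e, List.mem_of_find?_eq_some he, ?_⟩
    simpa [List.all_eq_true] using h
  · exact absurd h (by simp)

end Pool.Agent.V11205.URC
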