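import Mathlib
import Pool.Agent.Helper697.RepFinal
import Pool.Agent.V11205.URC.Enum

/-! The rules for the frames. -/

namespace Pool.Agent.V11205.URC

open Pool.Agent.Helper697.Rep

def enc (A : ℤ × ℤ × ℤ) : ℕ := A.1.toNat + 2 * A.2.1.toNat + 4 * A.2.2.toNat

def d8 (n : Fin 8) : ℤ × ℤ × ℤ := (((n.val % 2 : ℕ) : ℤ), ((n.val / 2 % 2 : ℕ) : ℤ), ((n.val / 4 : ℕ) : ℤ))

def InC (A : ℤ × ℤ × ℤ) : Prop := 0 ≤ A.1 ∧ A.1 ≤ 1 ∧ 0 ≤ A.2.1 ∧ A.2.1 ≤ 1 ∧ 0 ≤ A.2.2 ∧ A.2.2 ≤ 1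

lemma exists_d8 {A : ℤ × ℤ × ℤ} (h : InC A) : ∃ n : Fin 8, A = d8 n := by
  obtain ⟨x, y, z⟩ := A
  obtain ⟨h1, h2, h3, h4, h5, h6⟩ := h
  simp only at h1 h2 h3 h4 h5 h6
  interval_cases x <;> interval_cases y <;> interval_cases z
  · exact ⟨0, by decide⟩
  · exact ⟨4, by decide⟩
  · exact ⟨2, by decide⟩
  · exact ⟨6, by decide⟩
  · exact ⟨1, by decide⟩
  · exact ⟨5, by decide⟩
  · exact ⟨3, by decide⟩
  · exact ⟨7, by decide⟩

lemma good_in {A B C D : ℤ × ℤ × ℤ} (h : GoodSq 1 A B C D) : InC A ∧ InC B ∧ InC C ∧ InC D := by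
  obtain ⟨h1, h2, h3, h4, h5, h6, hA, hB, hC, hD, hf⟩ := h
  exact ⟨hA, hB, hC, hD⟩

lemma good_D {A B C D : ℤ × ℤ × ℤ} (h : GoodSq 1 A B C D) : D = B + C - A := by
  obtain ⟨h1, h2, h3, _⟩ := h
  ext
  · exact h1
  · exact h2
  · exact h3

def frOf (A B C : ℤ × ℤ × ℤ) : Fr := (enc A, enc B, enc C)

/-- the doubled centre from the face -/
def ctrF (n : ℕ) : ℤ × ℤ × ℤ :=
  if n = 1 then (0, 1, 1) else if n = 9 then (2, 1, 1)
  else if n = 2 then (1, 0, 1) else if n = 18 then (1, 2, 1)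
  else if n = 4 then (1, 1, 0) else (1, 1, 2)

lemma face_aux8 : ∀ a b c : Fin 8, GoodSq 1 (d8 a) (d8 b) (d8 c) (d8 b + d8 c - d8 a) →
    d8 a + (d8 b + d8 c - d8 a) = ctrF (face (frOf (d8 a) (d8 b) (d8 c))) ∧
    enc (d8 b + d8 c - d8 a) = dd (frOf (d8 a) (d8 b) (d8 c)) := by decide +kernel

lemma rule_aux8 : ∀ a b c : Fin 8, GoodSq 1 (d8 a) (d8 b) (d8 c) (d8 b + d8 c - d8 a) →
    ∀ b' : Fin 8, (GoodSq 1 (d8 b) (d8 b') (d8 b + d8 c - d8 a) (d8 b' + (d8 b + d8 c - d8 a) - d8 b) →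
      d8 a + (d8 b + d8 c - d8 a) ≠ d8 b + (d8 b' + (d8 b + d8 c - d8 a) - d8 b) →
      enc (d8 b') = enc (d8 b) ^^^ kk (frOf (d8 a) (d8 b) (d8 c))) ∧
     (GoodSq 1 (d8 c) (d8 b + d8 c - d8 a) (d8 b') ((d8 b + d8 c - d8 a) + d8 b' - d8 c) →
      d8 a + (d8 b + d8 c - d8 a) ≠ d8 c + ((d8 b + d8 c - d8 a) + d8 b' - d8 c) →
      enc (d8 b') = enc (d8 c) ^^^ kk (frOf (d8 a) (d8 b) (d8 c))) := by decide +kernel

lemma good_face {A B C D : ℤ × ℤ × ℤ} (h : GoodSq 1 A B C D) :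
    A + D = ctrF (face (frOf A B C)) ∧ enc D = dd (frOf A B C) := by
  obtain ⟨hA, hB, hC, hD⟩ := good_in h
  have hd := good_D h
  obtain ⟨a, rfl⟩ := exists_d8 hA
  obtain ⟨b, rfl⟩ := exists_d8 hB
  obtain ⟨c, rfl⟩ := exists_d8 hC
  subst hd
  exact face_aux8 a b c h

lemma rule_right {A B C D B' D' : ℤ × ℤ × ℤ} (h : GoodSq 1 A B C D) (h' : GoodSq 1 B B' D D')
    (hne : A + D ≠ B + D') : frOf B B' D = mR (frOf A B C) := by
  obtain ⟨hA, hB, hC, hD⟩ := good_in h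
  have hb' := (good_in h').2.1
  have hd := good_D h
  have hd' := good_D h'
  have hf := (good_face h).2
  obtain ⟨a, rfl⟩ := exists_d8 hA
  obtain ⟨b, rfl⟩ := exists_d8 hB
  obtain ⟨c, rfl⟩ := exists_d8 hC
  obtain ⟨b', rfl⟩ := exists_d8 hb'
  subst hd
  subst hd'
  have := (rule_aux8 a b c h b').1 h' hne
  unfold frOf mR at *
  simp only [Prod.mk.injEq]
  exact ⟨trivial, this, hf⟩

lemma rule_up {A B C D C' D' : ℤ × ℤ × ℤ} (h : GoodSq 1 A B C D) (h' : GoodSq 1 C D C' D')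
    (hne : A + D ≠ C + D') : frOf C D C' = mU (frOf A B C) := by
  obtain ⟨hA, hB, hC, hD⟩ := good_in h
  have hb' := (good_in h').2.2.1
  have hd := good_D h
  have hd' := good_D h'
  have hf := (good_face h).2
  obtain ⟨a, rfl⟩ := exists_d8 hA
  obtain ⟨b, rfl⟩ := exists_d8 hB
  obtain ⟨c, rfl⟩ := exists_d8 hC
  obtain ⟨c', rfl⟩ := exists_d8 hb'
  subst hd
  subst hd'
  have := (rule_aux8 a b c h c').2 h' hne
  unfold frOf mU at *
  simp only [Prod.mk.injEq]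
  exact ⟨trivial, hf, this⟩

lemma mL_mR (f : Fr) : mL (mR f) = f := by
  obtain ⟨a, b, c⟩ := f
  simp only [mL, mR, kk, dd, Prod.mk.injEq]
  refine ⟨?_, trivial, ?_⟩ <;>
  · apply Nat.eq_of_testBit_eq
    intro i
    simp only [Nat.testBit_xor]
    cases a.testBit i <;> cases b.testBit i <;> cases c.testBit i <;> cases (7 : ℕ).testBit i <;> rfl

lemma mD_mU (f : Fr) : mD (mU f) = f := by
  obtain ⟨a, b, c⟩ := f
  simp only [mD, mU, kk, dd, Prod.mk.injEq]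
  refine ⟨?_, ?_, trivial⟩ <;>
  · apply Nat.eq_of_testBit_eq
    intro i
    simp only [Nat.testBit_xor]
    cases a.testBit i <;> cases b.testBit i <;> cases c.testBit i <;> cases (7 : ℕ).testBit i <;> rfl

/-- the combinatorial content of a folding of `N` along the grid onto the unit cube -/
structure EF (N : Finset (ℤ × ℤ)) (F : ℤ × ℤ → ℤ × ℤ × ℤ) : Prop where
  good : ∀ c ∈ N, GoodSq 1 (F c) (F (c.1 + 1, c.2)) (F (c.1, c.2 + 1)) (F (c.1 + 1, c.2 + 1))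
  inj : ∀ c ∈ N, ∀ d ∈ N, ctr F c = ctr F d → c = d

def fr (F : ℤ × ℤ → ℤ × ℤ × ℤ) (c : ℤ × ℤ) : Fr := frOf (F c) (F (c.1 + 1, c.2)) (F (c.1, c.2 + 1))

variable {N : Finset (ℤ × ℤ)} {F : ℤ × ℤ → ℤ × ℤ × ℤ}

lemma EF.face_ne (h : EF N F) {c d : ℤ × ℤ} (hc : c ∈ N) (hd : d ∈ N) (hcd : c ≠ d) :
    face (fr F c) ≠ face (fr F d) := by
  intro he
  apply hcd
  apply h.inj c hc d hd
  have h1 := (good_face (h.good c hc)).1
  have h2 := (good_face (h.good d hd)).1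
  unfold fr at he
  unfold ctr
  rw [h1, h2, he]

lemma EF.right (h : EF N F) {c : ℤ × ℤ} (hc : c ∈ N) (hd : (c.1 + 1, c.2) ∈ N) :
    fr F (c.1 + 1, c.2) = mR (fr F c) := by
  have h1 := h.good c hc
  have h2 := h.good _ hd
  refine rule_right h1 h2 fun he => ?_
  have h3 := h.inj c hc _ hd he
  have h4 := congrArg Prod.fst h3
  simp at h4

lemma EF.up (h : EF N F) {c : ℤ × ℤ} (hc : c ∈ N) (hd : (c.1, c.2 + 1) ∈ N) :
    fr F (c.1, c.2 + 1) = mU (fr F c) := by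
  have h1 := h.good c hc
  have h2 := h.good _ hd
  refine rule_up h1 h2 fun he => ?_
  have h3 := h.inj c hc _ hd he
  have h4 := congrArg Prod.snd h3
  simp at h4

lemma EF.step (h : EF N F) {c d : ℤ × ℤ} (hc : c ∈ N) (hd : d ∈ N) (ha : EdgeAdj c d) :
    ∃ dm ∈ dirs, d = c + dm.1 ∧ fr F d = dm.2 (fr F c) := by
  obtain ⟨x, y⟩ := c
  obtain ⟨x', y'⟩ := d
  have h4 : (x' = x + 1 ∧ y' = y) ∨ (x' = x ∧ y' = y + 1) ∨ (x = x' + 1 ∧ y' = y) ∨
      (x' = x ∧ y = y' + 1) := by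
    unfold EdgeAdj at ha
    simp only at ha
    rcases abs_cases (x - x') with ⟨e1, _⟩ | ⟨e1, _⟩ <;>
    rcases abs_cases (y - y') with ⟨e2, _⟩ | ⟨e2, _⟩ <;> omega
  rcases h4 with ⟨rfl, rfl⟩ | ⟨rfl, rfl⟩ | ⟨rfl, rfl⟩ | ⟨rfl, rfl⟩
  · exact ⟨((1, 0), mR), by simp [dirs], by simp, h.right hc hd⟩
  · exact ⟨((0, 1), mU), by simp [dirs], by simp, h.up hc hd⟩
  · refine ⟨((-1, 0), mL), by simp [dirs], by simp, ?_⟩
    have := h.right hd hc
    simp only at this ⊢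
    rw [this, mL_mR]
  · refine ⟨((0, -1), mD), by simp [dirs], by simp, ?_⟩
    have := h.up hd hc
    simp only at this ⊢
    rw [this, mD_mU]

/-! ### Normalisation of the frame of one square -/

/-- symmetries of the unit cube -/
structure CSym (τ : ℤ × ℤ × ℤ → ℤ × ℤ × ℤ) : Prop where
  good : ∀ A B C D, GoodSq 1 A B C D → GoodSq 1 (τ A) (τ B) (τ C) (τ D)
  ctr : ∀ A D A' D', τ A + τ D = τ A' + τ D' → A + D = A' + D'

lemma EF.comp (h : EF N F) {τ : ℤ × ℤ × ℤ → ℤ × ℤ × ℤ} (hτ : CSym τ) : EF N (fun v => τ (F v)) := by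
  refine ⟨fun c hc => hτ.good _ _ _ _ (h.good c hc), fun c hc d hd he => ?_⟩
  exact h.inj c hc d hd (hτ.ctr _ _ _ _ he)

def r1 (A : ℤ × ℤ × ℤ) : ℤ × ℤ × ℤ := (1 - A.1, A.2.1, A.2.2)
def r2 (A : ℤ × ℤ × ℤ) : ℤ × ℤ × ℤ := (A.1, 1 - A.2.1, A.2.2)
def r3 (A : ℤ × ℤ × ℤ) : ℤ × ℤ × ℤ := (A.1, A.2.1, 1 - A.2.2)
def s12 (A : ℤ × ℤ × ℤ) : ℤ × ℤ × ℤ := (A.2.1, A.1, A.2.2)
def s13 (A : ℤ × ℤ × ℤ) : ℤ × ℤ × ℤ := (A.2.2, A.2.1, A.1)
def s23 (A : ℤ × ℤ × ℤ) : ℤ × ℤ × ℤ := (A.1, A.2.2, A.2.1)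

lemma csym_aux8 : ∀ a b c : Fin 8, GoodSq 1 (d8 a) (d8 b) (d8 c) (d8 b + d8 c - d8 a) →
    GoodSq 1 (r1 (d8 a)) (r1 (d8 b)) (r1 (d8 c)) (r1 (d8 b + d8 c - d8 a)) ∧
    GoodSq 1 (r2 (d8 a)) (r2 (d8 b)) (r2 (d8 c)) (r2 (d8 b + d8 c - d8 a)) ∧
    GoodSq 1 (r3 (d8 a)) (r3 (d8 b)) (r3 (d8 c)) (r3 (d8 b + d8 c - d8 a)) ∧
    GoodSq 1 (s12 (d8 a)) (s12 (d8 b)) (s12 (d8 c)) (s12 (d8 b + d8 c - d8 a)) ∧
    GoodSq 1 (s13 (d8 a)) (s13 (d8 b)) (s13 (d8 c)) (s13 (d8 b + d8 c - d8 a)) ∧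
    GoodSq 1 (s23 (d8 a)) (s23 (d8 b)) (s23 (d8 c)) (s23 (d8 b + d8 c - d8 a)) := by
  decide +kernel

lemma csym_aux {A B C D : ℤ × ℤ × ℤ} (h : GoodSq 1 A B C D) :
    GoodSq 1 (r1 A) (r1 B) (r1 C) (r1 D) ∧ GoodSq 1 (r2 A) (r2 B) (r2 C) (r2 D) ∧
    GoodSq 1 (r3 A) (r3 B) (r3 C) (r3 D) ∧ GoodSq 1 (s12 A) (s12 B) (s12 C) (s12 D) ∧
    GoodSq 1 (s13 A) (s13 B) (s13 C) (s13 D) ∧ GoodSq 1 (s23 A) (s23 B) (s23 C) (s23 D) := by
  obtain ⟨hA, hB, hC, hD⟩ := good_in h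
  have hd := good_D h
  obtain ⟨a, rfl⟩ := exists_d8 hA
  obtain ⟨b, rfl⟩ := exists_d8 hB
  obtain ⟨c, rfl⟩ := exists_d8 hC
  subst hd
  exact csym_aux8 a b c h

lemma csym_r1 : CSym r1 := by
  refine ⟨fun A B C D h => (csym_aux h).1, fun A D A' D' h => ?_⟩
  simp only [r1, Prod.ext_iff, Prod.fst_add, Prod.snd_add] at h ⊢
  omega

lemma csym_r2 : CSym r2 := by
  refine ⟨fun A B C D h => (csym_aux h).2.1, fun A D A' D' h => ?_⟩
  simp only [r2, Prod.ext_iff, Prod.fst_add, Prod.snd_add] at h ⊢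
  omega

lemma csym_r3 : CSym r3 := by
  refine ⟨fun A B C D h => (csym_aux h).2.2.1, fun A D A' D' h => ?_⟩
  simp only [r3, Prod.ext_iff, Prod.fst_add, Prod.snd_add] at h ⊢
  omega

lemma csym_s12 : CSym s12 := by
  refine ⟨fun A B C D h => (csym_aux h).2.2.2.1, fun A D A' D' h => ?_⟩
  simp only [s12, Prod.ext_iff, Prod.fst_add, Prod.snd_add] at h ⊢
  omega

lemma csym_s13 : CSym s13 := by
  refine ⟨fun A B C D h => (csym_aux h).2.2.2.2.1, fun A D A' D' h => ?_⟩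
  simp only [s13, Prod.ext_iff, Prod.fst_add, Prod.snd_add] at h ⊢
  omega

lemma csym_s23 : CSym s23 := by
  refine ⟨fun A B C D h => (csym_aux h).2.2.2.2.2, fun A D A' D' h => ?_⟩
  simp only [s23, Prod.ext_iff, Prod.fst_add, Prod.snd_add] at h ⊢
  omega

lemma frame_aux8 : ∀ b c : Fin 8, GoodSq 1 (d8 0) (d8 b) (d8 c) (d8 b + d8 c - d8 0) →
    frOf (d8 0) (d8 b) (d8 c) = (0, 1, 2) ∨ frOf (s23 (d8 0)) (s23 (d8 b)) (s23 (d8 c)) = (0, 1, 2) ∨
    frOf (s12 (d8 0)) (s12 (d8 b)) (s12 (d8 c)) = (0, 1, 2) ∨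
    frOf (s23 (s12 (d8 0))) (s23 (s12 (d8 b))) (s23 (s12 (d8 c))) = (0, 1, 2) ∨
    frOf (s13 (d8 0)) (s13 (d8 b)) (s13 (d8 c)) = (0, 1, 2) ∨
    frOf (s23 (s13 (d8 0))) (s23 (s13 (d8 b))) (s23 (s13 (d8 c))) = (0, 1, 2) := by
  decide +kernel

lemma EF.zero (h : EF N F) {r : ℤ × ℤ} (hr : r ∈ N) : ∃ F', EF N F' ∧ F' r = (0, 0, 0) := by
  have h1 : ∃ F', EF N F' ∧ (F' r).1 = 0 := by
    obtain ⟨hA, _⟩ := good_in (h.good r hr)
    by_cases h0 : (F r).1 = 0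
    · exact ⟨F, h, h0⟩
    · refine ⟨_, h.comp csym_r1, ?_⟩
      simp only [r1]
      obtain ⟨a1, a2, _⟩ := hA
      omega
  obtain ⟨F1, h1, e1⟩ := h1
  have h2 : ∃ F', EF N F' ∧ (F' r).1 = 0 ∧ (F' r).2.1 = 0 := by
    obtain ⟨hA, _⟩ := good_in (h1.good r hr)
    by_cases h0 : (F1 r).2.1 = 0
    · exact ⟨F1, h1, e1, h0⟩
    · refine ⟨_, h1.comp csym_r2, ?_, ?_⟩
      · simpa only [r2] using e1
      · simp only [r2]
        obtain ⟨_, _, a1, a2, _⟩ := hA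
        omega
  obtain ⟨F2, h2, e1, e2⟩ := h2
  obtain ⟨hA, _⟩ := good_in (h2.good r hr)
  by_cases h0 : (F2 r).2.2 = 0
  · exact ⟨F2, h2, Prod.ext e1 (Prod.ext e2 h0)⟩
  · refine ⟨_, h2.comp csym_r3, ?_⟩
    simp only [r3, e1, e2]
    obtain ⟨_, _, _, _, a1, a2⟩ := hA
    have : 1 - (F2 r).2.2 = 0 := by omega
    rw [this]

lemma EF.normal (h : EF N F) {r : ℤ × ℤ} (hr : r ∈ N) : ∃ F', EF N F' ∧ fr F' r = (0, 1, 2) := by
  obtain ⟨F1, h1, e⟩ := h.zero hr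
  have hg := h1.good r hr
  obtain ⟨hA, hB, hC, hD⟩ := good_in hg
  have hd := good_D hg
  obtain ⟨b, hb⟩ := exists_d8 hB
  obtain ⟨c, hc⟩ := exists_d8 hC
  have ea : F1 r = d8 0 := by rw [e]; rfl
  rw [hd, hb, hc, ea] at hg
  rcases frame_aux8 b c hg with h2 | h2 | h2 | h2 | h2 | h2
  · refine ⟨F1, h1, ?_⟩
    unfold fr; simp only [hb, hc, ea]; exact h2
  · refine ⟨_, h1.comp csym_s23, ?_⟩
    unfold fr; simp only [hb, hc, ea]; exact h2
  · refine ⟨_, h1.comp csym_s12, ?_⟩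
    unfold fr; simp only [hb, hc, ea]; exact h2
  · refine ⟨_, (h1.comp csym_s12).comp csym_s23, ?_⟩
    unfold fr; simp only [hb, hc, ea]; exact h2
  · refine ⟨_, h1.comp csym_s13, ?_⟩
    unfold fr; simp only [hb, hc, ea]; exact h2
  · refine ⟨_, (h1.comp csym_s13).comp csym_s23, ?_⟩
    unfold fr; simp only [hb, hc, ea]; exact h2

/-! ### The enumeration -/

lemma exists_cross (hN : IsPolyomino N) {S : Finset (ℤ × ℤ)} {a b : ℤ × ℤ} (hS : S ⊆ N)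
    (ha : a ∈ S) (hb : b ∈ N) (hbS : b ∉ S) : ∃ p ∈ S, ∃ q ∈ N, q ∉ S ∧ EdgeAdj p q := by
  by_contra hcon
  push Not at hcon
  have key : ∀ x, Relation.ReflTransGen (fun a b => a ∈ N ∧ b ∈ N ∧ EdgeAdj a b) a x → x ∈ S := by
    intro x hx
    induction hx with
    | refl => exact ha
    | tail _ hyz ih =>
      rename_i y z _
      by_contra hz
      exact hcon y ih z hyz.2.1 hz hyz.2.2
  exact hbS (key b (hN.2 a (hS ha) b hb))

lemma states (hN : IsPolyomino N) (h : EF N F) {r : ℤ × ℤ} (hr : r ∈ N)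
    (hmin : ∀ c ∈ N, okq (c - r) = true) :
    ∀ m, m + 1 ≤ N.card → ∃ st ∈ gen (fr F r) m, st.length = m + 1 ∧ (st.map Prod.fst).Nodup ∧
      ∀ s ∈ st, s.1 + r ∈ N ∧ s.2 = fr F (s.1 + r) := by
  intro m
  induction m with
  | zero =>
    intro _
    refine ⟨[((0, 0), fr F r)], by simp [gen], rfl, by simp, ?_⟩
    intro s hs
    rw [List.mem_singleton] at hs
    subst hs
    have e : ((0, 0) : ℤ × ℤ) + r = r := by ext <;> simp
    rw [e]
    exact ⟨hr, rfl⟩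
  | succ m ih =>
    intro hm
    obtain ⟨st, h1, h2, h3, h4⟩ := ih (by omega)
    set S : Finset (ℤ × ℤ) := (st.map Prod.fst).toFinset.image (fun c => c + r) with hSdef
    have hS : S ⊆ N := by
      intro c hc
      rw [hSdef, Finset.mem_image] at hc
      obtain ⟨x, hx, rfl⟩ := hc
      rw [List.mem_toFinset, List.mem_map] at hx
      obtain ⟨s, hs, rfl⟩ := hx
      exact (h4 s hs).1
    have hcard : S.card = m + 1 := by
      rw [hSdef, Finset.card_image_of_injective _ (add_left_injective r),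
        List.toFinset_card_of_nodup h3, List.length_map, h2]
    obtain ⟨b, hb, hbS⟩ : ∃ b ∈ N, b ∉ S := by
      by_contra hcon
      push Not at hcon
      have := Finset.card_le_card (show N ⊆ S from hcon)
      omega
    obtain ⟨a, ha⟩ : S.Nonempty := by
      rw [← Finset.card_pos]; omega
    obtain ⟨p, hp, q, hq, hqS, hpq⟩ := exists_cross hN hS ha hb hbS
    rw [hSdef, Finset.mem_image] at hp
    obtain ⟨x, hx, rfl⟩ := hp
    rw [List.mem_toFinset, List.mem_map] at hx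
    obtain ⟨s, hs, rfl⟩ := hx
    obtain ⟨dm, hdm, hq1, hq2⟩ := h.step (h4 s hs).1 hq hpq
    have hq3 : q - r = s.1 + dm.1 := by rw [hq1]; abel
    have hq4 : s.1 + dm.1 + r = q := by rw [hq1]; abel
    have hnew : ∀ t ∈ st, t.1 ≠ s.1 + dm.1 := by
      intro t ht he
      apply hqS
      rw [hSdef, Finset.mem_image]
      refine ⟨t.1, ?_, by rw [he, hq4]⟩
      rw [List.mem_toFinset, List.mem_map]
      exact ⟨t, ht, rfl⟩
    have hfr : dm.2 s.2 = fr F q := by rw [hq2, (h4 s hs).2]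
    refine ⟨(s.1 + dm.1, dm.2 s.2) :: st, ?_, ?_, ?_, ?_⟩
    · rw [gen, List.mem_flatMap]
      refine ⟨st, h1, mem_grow hs hdm ?_ hnew ?_⟩
      · rw [← hq3]; exact hmin q hq
      · intro t ht
        rw [hfr, (h4 t ht).2]
        refine h.face_ne (h4 t ht).1 hq fun he => ?_
        apply hnew t ht
        rw [← hq3, ← he]; abel
    · rw [List.length_cons, h2]
    · rw [List.map_cons, List.nodup_cons]
      refine ⟨fun hmem => ?_, h3⟩
      rw [List.mem_map] at hmem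
      obtain ⟨t, ht, he⟩ := hmem
      exact hnew t ht he
    · intro t ht
      rcases List.mem_cons.mp ht with rfl | ht
      · exact ⟨by rw [hq4]; exact hq, by rw [hq4]; exact hfr⟩
      · exact h4 t ht

/-- the classification of the edge nets up to symmetries of the grid -/
theorem classify (hN : IsPolyomino N) (h : EF N F) (hcard : N.card = 6) :
    ∃ e ∈ table, ∃ g : Sym, N = (e.N.toFinset.image e.g.cell).image g.cell := by
  obtain ⟨r, hr, hmin⟩ := Finset.exists_min_image N (fun c => toLex (c.2, c.1)) hN.1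
  have hmin' : ∀ c ∈ N, okq (c - r) = true := by
    intro c hc
    have h1 := hmin c hc
    rw [Prod.Lex.toLex_le_toLex] at h1
    simp only [okq, Bool.or_eq_true, Bool.and_eq_true, decide_eq_true_eq, Prod.fst_sub, Prod.snd_sub]
    simp only at h1
    omega
  obtain ⟨F', h', hF'⟩ := h.normal hr
  obtain ⟨st, h1, h2, h3, h4⟩ := states hN h' hr hmin' 5 (by omega)
  rw [hF'] at h1
  have h5 : leafOk st = true := by
    have h6 := leaves_ok
    rw [List.all_eq_true] at h6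
    exact h6 st h1
  obtain ⟨e, he, h6⟩ := leaf_sound h5
  refine ⟨e, he, ⟨false, false, false, r.1, r.2⟩, ?_⟩
  have h7 := table_ok
  rw [List.all_eq_true] at h7
  have h8 := h7 e he
  simp only [entryOk, Bool.and_eq_true, List.all_eq_true, decide_eq_true_eq] at h8
  obtain ⟨h9, h10, h11⟩ := h8
  have e1 : e.L.toFinset = e.N.toFinset.image e.g.cell := by
    ext d
    simp only [List.mem_toFinset, Finset.mem_image]
    constructor
    · intro hd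
      obtain ⟨c, hc, h⟩ := List.mem_map.mp (h11 d hd)
      exact ⟨c, hc, h⟩
    · rintro ⟨c, hc, rfl⟩
      exact h10 c hc
  have e2 : (st.map Prod.fst).toFinset = e.L.toFinset := by
    apply Finset.eq_of_subset_of_card_le
    · intro c hc
      rw [List.mem_toFinset, List.mem_map] at hc
      obtain ⟨s, hs, rfl⟩ := hc
      rw [List.mem_toFinset]
      exact h6 s hs
    · rw [List.toFinset_card_of_nodup h3, List.length_map, h2]
      refine (List.toFinset_card_le _).trans ?_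
      rw [Nat.eq_of_beq_eq_true h9]
  rw [← e1, ← e2]
  symm
  apply Finset.eq_of_subset_of_card_le
  · intro c hc
    rw [Finset.mem_image] at hc
    obtain ⟨x, hx, rfl⟩ := hc
    rw [List.mem_toFinset, List.mem_map] at hx
    obtain ⟨s, hs, rfl⟩ := hx
    have := (h4 s hs).1
    simp only [Sym.cell, cx, Bool.false_eq_true, if_false]
    have e3 : (r.1 + s.1.1, r.2 + s.1.2) = s.1 + r := by ext <;> simp [add_comm]
    rw [e3]; exact this
  · rw [Finset.card_image_of_injective, List.toFinset_card_of_nodup h3, List.length_map, h2, hcard]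
    intro x y hxy
    simp only [Sym.cell, cx, Bool.false_eq_true, if_false, Prod.mk.injEq, add_right_inj] at hxy
    exact Prod.ext hxy.1 hxy.2

end Pool.Agent.V11205.URC
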