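import Mathlib
import Pool.Agent.V11205.URC.Rule

/-! From the geometric notion of an edge net to its combinatorial content. -/

namespace Pool.Agent.V11205.URC

open Pool.Agent.Helper697.Rep

noncomputable def pt (v : ℤ × ℤ) : Plane := !₂[(v.1 : ℝ), (v.2 : ℝ)]

noncomputable def cen (v : ℤ × ℤ) : Plane := !₂[(v.1 : ℝ) + 1 / 2, (v.2 : ℝ) + 1 / 2]

lemma pt0 (v : ℤ × ℤ) : pt v 0 = v.1 := rfl
lemma pt1 (v : ℤ × ℤ) : pt v 1 = v.2 := rfl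
lemma cen0 (v : ℤ × ℤ) : cen v 0 = v.1 + 1 / 2 := rfl
lemma cen1 (v : ℤ × ℤ) : cen v 1 = v.2 + 1 / 2 := rfl

lemma dsq2 (x y : Plane) : dist x y ^ 2 = (x 0 - y 0) ^ 2 + (x 1 - y 1) ^ 2 := by
  rw [EuclideanSpace.dist_eq, Real.sq_sqrt (by positivity), Fin.sum_univ_two]
  simp only [Real.dist_eq, sq_abs]

lemma dsq3 (x y : Space) :
    dist x y ^ 2 = (x 0 - y 0) ^ 2 + (x 1 - y 1) ^ 2 + (x 2 - y 2) ^ 2 := by
  rw [EuclideanSpace.dist_eq, Real.sq_sqrt (by positivity), Fin.sum_univ_three]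
  simp only [Real.dist_eq, sq_abs]

lemma bits {a b c d : ℝ} (ha : 0 ≤ a ∧ a ≤ 1) (hb : 0 ≤ b ∧ b ≤ 1) (hc : 0 ≤ c ∧ c ≤ 1)
    (hd : 0 ≤ d ∧ d ≤ 1) (h : (a - b) ^ 2 + (c - d) ^ 2 = 2) :
    (a = 0 ∨ a = 1) ∧ (c = 0 ∨ c = 1) := by
  have key : ∀ x y : ℝ, (0 ≤ x ∧ x ≤ 1) → (0 ≤ y ∧ y ≤ 1) → (x - y) ^ 2 ≤ 1 := by
    intro x y hx hy; nlinarith
  have key2 : ∀ x y : ℝ, (0 ≤ x ∧ x ≤ 1) → (0 ≤ y ∧ y ≤ 1) → (x - y) ^ 2 = 1 → x = 0 ∨ x = 1 := by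
    intro x y hx hy he
    have h1 : (x - y - 1) * (x - y + 1) = 0 := by linear_combination he
    rcases mul_eq_zero.mp h1 with h2 | h2
    · right; linarith [hx.2, hy.1]
    · left; linarith [hx.1, hy.2]
  have h1 := key a b ha hb
  have h2 := key c d hc hd
  exact ⟨key2 a b ha hb (by linarith), key2 c d hc hd (by linarith)⟩

lemma corner_int {a b : Space} (ha : ∀ j, 0 ≤ a j ∧ a j ≤ 1) (hb : ∀ j, 0 ≤ b j ∧ b j ≤ 1)
    {i : Fin 3} (hi : a i = b i) (hs : a i = 0 ∨ a i = 1)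
    (h : (a 0 - b 0) ^ 2 + (a 1 - b 1) ^ 2 + (a 2 - b 2) ^ 2 = 2) :
    ∀ j, a j = 0 ∨ a j = 1 := by
  fin_cases i
  · simp only [Fin.zero_eta, Fin.isValue] at hi hs
    have h1 := bits (ha 1) (hb 1) (ha 2) (hb 2) (by rw [hi] at h; linarith)
    intro j
    fin_cases j
    · exact hs
    · exact h1.1
    · exact h1.2
  · simp only [Fin.mk_one, Fin.isValue] at hi hs
    have h1 := bits (ha 0) (hb 0) (ha 2) (hb 2) (by rw [hi] at h; linarith)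
    intro j
    fin_cases j
    · exact h1.1
    · exact hs
    · exact h1.2
  · simp only [Fin.reduceFinMk, Fin.isValue] at hi hs
    have h1 := bits (ha 0) (hb 0) (ha 1) (hb 1) (by rw [hi] at h; linarith)
    intro j
    fin_cases j
    · exact h1.1
    · exact h1.2
    · exact hs

/-- rounding of the images of the lattice points -/
noncomputable def Fz (f : Plane → Space) (v : ℤ × ℤ) : ℤ × ℤ × ℤ :=
  (⌊f (pt v) 0⌋, ⌊f (pt v) 1⌋, ⌊f (pt v) 2⌋)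

lemma toS_Fz {f : Plane → Space} {v : ℤ × ℤ} (h : ∀ j, f (pt v) j = 0 ∨ f (pt v) j = 1) :
    f (pt v) = toS (Fz f v) := by
  have key : ∀ j, ((⌊f (pt v) j⌋ : ℤ) : ℝ) = f (pt v) j := by
    intro j
    rcases h j with h | h <;> rw [h] <;> simp
  ext j
  fin_cases j
  · exact (key 0).symm
  · exact (key 1).symm
  · exact (key 2).symm

lemma good_of {A B C D : ℤ × ℤ × ℤ} {a b c d : Space} (hA : a = toS A) (hB : b = toS B)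
    (hC : c = toS C) (hD : d = toS D)
    (hab : (a 0 - b 0) ^ 2 + (a 1 - b 1) ^ 2 + (a 2 - b 2) ^ 2 = 1)
    (hac : (a 0 - c 0) ^ 2 + (a 1 - c 1) ^ 2 + (a 2 - c 2) ^ 2 = 1)
    (hbc : (b 0 - c 0) ^ 2 + (b 1 - c 1) ^ 2 + (b 2 - c 2) ^ 2 = 2)
    (had : (a 0 - d 0) ^ 2 + (a 1 - d 1) ^ 2 + (a 2 - d 2) ^ 2 = 2)
    (hbd : (b 0 - d 0) ^ 2 + (b 1 - d 1) ^ 2 + (b 2 - d 2) ^ 2 = 1)
    (hcd : (c 0 - d 0) ^ 2 + (c 1 - d 1) ^ 2 + (c 2 - d 2) ^ 2 = 1)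
    (ia : ∀ j, 0 ≤ a j ∧ a j ≤ 1) (ib : ∀ j, 0 ≤ b j ∧ b j ≤ 1)
    (ic : ∀ j, 0 ≤ c j ∧ c j ≤ 1) (id : ∀ j, 0 ≤ d j ∧ d j ≤ 1)
    {i : Fin 3} (hi : a i = b i ∧ a i = c i) (hs : a i = 0 ∨ a i = 1) : GoodSq 1 A B C D := by
  subst hA hB hC hD
  simp only [toS_0, toS_1, toS_2] at hab hac hbc had hbd hcd
  have hab' : (A.1 - B.1) ^ 2 + (A.2.1 - B.2.1) ^ 2 + (A.2.2 - B.2.2) ^ 2 = 1 := by exact_mod_cast hab
  have hac' : (A.1 - C.1) ^ 2 + (A.2.1 - C.2.1) ^ 2 + (A.2.2 - C.2.2) ^ 2 = 1 := by exact_mod_cast hac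
  have hbc' : (B.1 - C.1) ^ 2 + (B.2.1 - C.2.1) ^ 2 + (B.2.2 - C.2.2) ^ 2 = 2 := by exact_mod_cast hbc
  have had' : (A.1 - D.1) ^ 2 + (A.2.1 - D.2.1) ^ 2 + (A.2.2 - D.2.2) ^ 2 = 2 := by exact_mod_cast had
  have hbd' : (B.1 - D.1) ^ 2 + (B.2.1 - D.2.1) ^ 2 + (B.2.2 - D.2.2) ^ 2 = 1 := by exact_mod_cast hbd
  have hcd' : (C.1 - D.1) ^ 2 + (C.2.1 - D.2.1) ^ 2 + (C.2.2 - D.2.2) ^ 2 = 1 := by exact_mod_cast hcd
  have hsum : (D.1 - (B.1 + C.1 - A.1)) ^ 2 + (D.2.1 - (B.2.1 + C.2.1 - A.2.1)) ^ 2 +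
      (D.2.2 - (B.2.2 + C.2.2 - A.2.2)) ^ 2 = 0 := by
    linear_combination hab' + hac' - had' - hbc' + hbd' + hcd'
  have e1 : D.1 = B.1 + C.1 - A.1 := by
    have : (D.1 - (B.1 + C.1 - A.1)) ^ 2 = 0 := by
      nlinarith [sq_nonneg (D.1 - (B.1 + C.1 - A.1)), sq_nonneg (D.2.1 - (B.2.1 + C.2.1 - A.2.1)),
        sq_nonneg (D.2.2 - (B.2.2 + C.2.2 - A.2.2))]
    have := pow_eq_zero_iff (two_ne_zero) |>.mp this
    linarith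
  have e2 : D.2.1 = B.2.1 + C.2.1 - A.2.1 := by
    have : (D.2.1 - (B.2.1 + C.2.1 - A.2.1)) ^ 2 = 0 := by
      nlinarith [sq_nonneg (D.1 - (B.1 + C.1 - A.1)), sq_nonneg (D.2.1 - (B.2.1 + C.2.1 - A.2.1)),
        sq_nonneg (D.2.2 - (B.2.2 + C.2.2 - A.2.2))]
    have := pow_eq_zero_iff (two_ne_zero) |>.mp this
    linarith
  have e3 : D.2.2 = B.2.2 + C.2.2 - A.2.2 := by
    have : (D.2.2 - (B.2.2 + C.2.2 - A.2.2)) ^ 2 = 0 := by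
      nlinarith [sq_nonneg (D.1 - (B.1 + C.1 - A.1)), sq_nonneg (D.2.1 - (B.2.1 + C.2.1 - A.2.1)),
        sq_nonneg (D.2.2 - (B.2.2 + C.2.2 - A.2.2))]
    have := pow_eq_zero_iff (two_ne_zero) |>.mp this
    linarith
  have bd : ∀ X : ℤ × ℤ × ℤ, (∀ j, 0 ≤ toS X j ∧ toS X j ≤ 1) →
      0 ≤ X.1 ∧ X.1 ≤ 1 ∧ 0 ≤ X.2.1 ∧ X.2.1 ≤ 1 ∧ 0 ≤ X.2.2 ∧ X.2.2 ≤ 1 := by
    intro X hX
    have h0 : (0 : ℝ) ≤ (X.1 : ℝ) ∧ (X.1 : ℝ) ≤ 1 := hX 0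
    have h1 : (0 : ℝ) ≤ (X.2.1 : ℝ) ∧ (X.2.1 : ℝ) ≤ 1 := hX 1
    have h2 : (0 : ℝ) ≤ (X.2.2 : ℝ) ∧ (X.2.2 : ℝ) ≤ 1 := hX 2
    exact ⟨by exact_mod_cast h0.1, by exact_mod_cast h0.2, by exact_mod_cast h1.1,
      by exact_mod_cast h1.2, by exact_mod_cast h2.1, by exact_mod_cast h2.2⟩
  refine ⟨e1, e2, e3, by linear_combination hab', by linear_combination hac', ?_, bd A ia, bd B ib,
    bd C ic, bd D id, ?_⟩
  · have h2 : 2 * ((B.1 - A.1) * (C.1 - A.1) + (B.2.1 - A.2.1) * (C.2.1 - A.2.1) +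
      (B.2.2 - A.2.2) * (C.2.2 - A.2.2)) = 0 := by linear_combination hab' + hac' - hbc'
    omega
  · fin_cases i
    · left
      simp only [Fin.zero_eta, Fin.isValue, toS_0] at hi hs
      exact ⟨by exact_mod_cast hi.1, by exact_mod_cast hi.2, by exact_mod_cast hs⟩
    · right; left
      simp only [Fin.mk_one, Fin.isValue, toS_1] at hi hs
      exact ⟨by exact_mod_cast hi.1, by exact_mod_cast hi.2, by exact_mod_cast hs⟩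
    · right; right
      simp only [Fin.reduceFinMk, Fin.isValue, toS_2] at hi hs
      exact ⟨by exact_mod_cast hi.1, by exact_mod_cast hi.2, by exact_mod_cast hs⟩

section net

variable {f : Plane → Space} {c : ℤ × ℤ}

lemma face_data (hf : IsCubeFace (f '' square c)) : ∃ (i : Fin 3) (s : ℝ), (s = 0 ∨ s = 1) ∧
    ∀ x ∈ square c, (∀ j, 0 ≤ f x j ∧ f x j ≤ 1) ∧ f x i = s := by
  obtain ⟨i, h | h⟩ := hf
  · refine ⟨i, 0, Or.inl rfl, fun x hx => ?_⟩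
    have : f x ∈ f '' square c := ⟨x, hx, rfl⟩
    rw [h] at this
    exact ⟨this.1.1, this.2⟩
  · refine ⟨i, 1, Or.inr rfl, fun x hx => ?_⟩
    have : f x ∈ f '' square c := ⟨x, hx, rfl⟩
    rw [h] at this
    exact ⟨this.1.1, this.2⟩

lemma mem_sq {c : ℤ × ℤ} {x : Plane} (h : (c.1 : ℝ) ≤ x 0 ∧ x 0 ≤ c.1 + 1 ∧ (c.2 : ℝ) ≤ x 1 ∧ x 1 ≤ c.2 + 1) :
    x ∈ square c := ⟨⟨h.1, h.2.1⟩, ⟨h.2.2.1, h.2.2.2⟩⟩

lemma net_local (hiso : ∀ x ∈ square c, ∀ y ∈ square c, dist (f x) (f y) = dist x y)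
    (hf : IsCubeFace (f '' square c)) :
    GoodSq 1 (Fz f c) (Fz f (c.1 + 1, c.2)) (Fz f (c.1, c.2 + 1)) (Fz f (c.1 + 1, c.2 + 1)) ∧
    ∀ j, f (cen c) j = (toS (Fz f c) j + toS (Fz f (c.1 + 1, c.2 + 1)) j) / 2 := by
  obtain ⟨i, s, hs, hface⟩ := face_data hf
  have d3 : ∀ x ∈ square c, ∀ y ∈ square c, (f x 0 - f y 0) ^ 2 + (f x 1 - f y 1) ^ 2 +
      (f x 2 - f y 2) ^ 2 = (x 0 - y 0) ^ 2 + (x 1 - y 1) ^ 2 := by
    intro x hx y hy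
    rw [← dsq3, ← dsq2, hiso x hx y hy]
  have mA : pt c ∈ square c := mem_sq (by rw [pt0, pt1]; refine ⟨?_, ?_, ?_, ?_⟩ <;> linarith)
  have mB : pt (c.1 + 1, c.2) ∈ square c :=
    mem_sq (by rw [pt0, pt1]; push_cast; refine ⟨?_, ?_, ?_, ?_⟩ <;> linarith)
  have mC : pt (c.1, c.2 + 1) ∈ square c :=
    mem_sq (by rw [pt0, pt1]; push_cast; refine ⟨?_, ?_, ?_, ?_⟩ <;> linarith)
  have mD : pt (c.1 + 1, c.2 + 1) ∈ square c :=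
    mem_sq (by rw [pt0, pt1]; push_cast; refine ⟨?_, ?_, ?_, ?_⟩ <;> linarith)
  have mM : cen c ∈ square c := mem_sq (by rw [cen0, cen1]; refine ⟨?_, ?_, ?_, ?_⟩ <;> linarith)
  have hab : (f (pt c) 0 - f (pt (c.1 + 1, c.2)) 0) ^ 2 + (f (pt c) 1 - f (pt (c.1 + 1, c.2)) 1) ^ 2 + (f (pt c) 2 - f (pt (c.1 + 1, c.2)) 2) ^ 2 = 1 := by
    rw [d3 _ mA _ mB]; simp [pt0, pt1, cen0, cen1]; try ring
  have hac : (f (pt c) 0 - f (pt (c.1, c.2 + 1)) 0) ^ 2 + (f (pt c) 1 - f (pt (c.1, c.2 + 1)) 1) ^ 2 + (f (pt c) 2 - f (pt (c.1, c.2 + 1)) 2) ^ 2 = 1 := by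
    rw [d3 _ mA _ mC]; simp [pt0, pt1, cen0, cen1]; try ring
  have hbc : (f (pt (c.1 + 1, c.2)) 0 - f (pt (c.1, c.2 + 1)) 0) ^ 2 + (f (pt (c.1 + 1, c.2)) 1 - f (pt (c.1, c.2 + 1)) 1) ^ 2 + (f (pt (c.1 + 1, c.2)) 2 - f (pt (c.1, c.2 + 1)) 2) ^ 2 = 2 := by
    rw [d3 _ mB _ mC]; simp [pt0, pt1, cen0, cen1]; try ring
  have had : (f (pt c) 0 - f (pt (c.1 + 1, c.2 + 1)) 0) ^ 2 + (f (pt c) 1 - f (pt (c.1 + 1, c.2 + 1)) 1) ^ 2 + (f (pt c) 2 - f (pt (c.1 + 1, c.2 + 1)) 2) ^ 2 = 2 := by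
    rw [d3 _ mA _ mD]; simp [pt0, pt1, cen0, cen1]; try ring
  have hbd : (f (pt (c.1 + 1, c.2)) 0 - f (pt (c.1 + 1, c.2 + 1)) 0) ^ 2 + (f (pt (c.1 + 1, c.2)) 1 - f (pt (c.1 + 1, c.2 + 1)) 1) ^ 2 + (f (pt (c.1 + 1, c.2)) 2 - f (pt (c.1 + 1, c.2 + 1)) 2) ^ 2 = 1 := by
    rw [d3 _ mB _ mD]; simp [pt0, pt1, cen0, cen1]; try ring
  have hcd : (f (pt (c.1, c.2 + 1)) 0 - f (pt (c.1 + 1, c.2 + 1)) 0) ^ 2 + (f (pt (c.1, c.2 + 1)) 1 - f (pt (c.1 + 1, c.2 + 1)) 1) ^ 2 + (f (pt (c.1, c.2 + 1)) 2 - f (pt (c.1 + 1, c.2 + 1)) 2) ^ 2 = 1 := by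
    rw [d3 _ mC _ mD]; simp [pt0, pt1, cen0, cen1]; try ring
  have hma : (f (cen c) 0 - f (pt c) 0) ^ 2 + (f (cen c) 1 - f (pt c) 1) ^ 2 + (f (cen c) 2 - f (pt c) 2) ^ 2 = 1 / 2 := by
    rw [d3 _ mM _ mA]; simp [pt0, pt1, cen0, cen1]; try ring
  have hmd : (f (cen c) 0 - f (pt (c.1 + 1, c.2 + 1)) 0) ^ 2 + (f (cen c) 1 - f (pt (c.1 + 1, c.2 + 1)) 1) ^ 2 + (f (cen c) 2 - f (pt (c.1 + 1, c.2 + 1)) 2) ^ 2 = 1 / 2 := by
    rw [d3 _ mM _ mD]; simp [pt0, pt1, cen0, cen1]; try ring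
  have hda : (f (pt (c.1 + 1, c.2 + 1)) 0 - f (pt c) 0) ^ 2 + (f (pt (c.1 + 1, c.2 + 1)) 1 - f (pt c) 1) ^ 2 + (f (pt (c.1 + 1, c.2 + 1)) 2 - f (pt c) 2) ^ 2 = 2 := by
    rw [d3 _ mD _ mA]; simp [pt0, pt1, cen0, cen1]; try ring
  have hcb : (f (pt (c.1, c.2 + 1)) 0 - f (pt (c.1 + 1, c.2)) 0) ^ 2 + (f (pt (c.1, c.2 + 1)) 1 - f (pt (c.1 + 1, c.2)) 1) ^ 2 + (f (pt (c.1, c.2 + 1)) 2 - f (pt (c.1 + 1, c.2)) 2) ^ 2 = 2 := by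
    rw [d3 _ mC _ mB]; simp [pt0, pt1, cen0, cen1]; try ring
  have iA := corner_int (hface _ mA).1 (hface _ mD).1 (i := i) (by rw [(hface _ mA).2, (hface _ mD).2])
    (by rw [(hface _ mA).2]; exact hs) had
  have iB := corner_int (hface _ mB).1 (hface _ mC).1 (i := i) (by rw [(hface _ mB).2, (hface _ mC).2])
    (by rw [(hface _ mB).2]; exact hs) hbc
  have iC := corner_int (hface _ mC).1 (hface _ mB).1 (i := i) (by rw [(hface _ mB).2, (hface _ mC).2])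
    (by rw [(hface _ mC).2]; exact hs) hcb
  have iD := corner_int (hface _ mD).1 (hface _ mA).1 (i := i) (by rw [(hface _ mA).2, (hface _ mD).2])
    (by rw [(hface _ mD).2]; exact hs) hda
  refine ⟨good_of (toS_Fz iA) (toS_Fz iB) (toS_Fz iC) (toS_Fz iD) hab hac
    hbc had hbd hcd (hface _ mA).1 (hface _ mB).1
    (hface _ mC).1 (hface _ mD).1 (i := i)
    ⟨by rw [(hface _ mA).2, (hface _ mB).2], by rw [(hface _ mA).2, (hface _ mC).2]⟩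
    (by rw [(hface _ mA).2]; exact hs), ?_⟩
  rw [← toS_Fz iA, ← toS_Fz iD]
  set m := f (cen c) with hm
  set a := f (pt c) with ha
  set d := f (pt (c.1 + 1, c.2 + 1)) with hd
  have hsum : (2 * m 0 - a 0 - d 0) ^ 2 + (2 * m 1 - a 1 - d 1) ^ 2 + (2 * m 2 - a 2 - d 2) ^ 2 = 0 := by
    linear_combination 2 * hma + 2 * hmd - had
  have e0 : 2 * m 0 - a 0 - d 0 = 0 := by
    have : (2 * m 0 - a 0 - d 0) ^ 2 = 0 := by
      nlinarith [sq_nonneg (2 * m 0 - a 0 - d 0), sq_nonneg (2 * m 1 - a 1 - d 1), sq_nonneg (2 * m 2 - a 2 - d 2)]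
    exact pow_eq_zero_iff (two_ne_zero) |>.mp this
  have e1 : 2 * m 1 - a 1 - d 1 = 0 := by
    have : (2 * m 1 - a 1 - d 1) ^ 2 = 0 := by
      nlinarith [sq_nonneg (2 * m 0 - a 0 - d 0), sq_nonneg (2 * m 1 - a 1 - d 1), sq_nonneg (2 * m 2 - a 2 - d 2)]
    exact pow_eq_zero_iff (two_ne_zero) |>.mp this
  have e2 : 2 * m 2 - a 2 - d 2 = 0 := by
    have : (2 * m 2 - a 2 - d 2) ^ 2 = 0 := by
      nlinarith [sq_nonneg (2 * m 0 - a 0 - d 0), sq_nonneg (2 * m 1 - a 1 - d 1), sq_nonneg (2 * m 2 - a 2 - d 2)]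
    exact pow_eq_zero_iff (two_ne_zero) |>.mp this
  intro j
  fin_cases j
  · simp only [Fin.zero_eta, Fin.isValue]; linarith
  · simp only [Fin.mk_one, Fin.isValue]; linarith
  · simp only [Fin.reduceFinMk, Fin.isValue]; linarith

end net

lemma cen_interior {N : Finset (ℤ × ℤ)} {c : ℤ × ℤ} (hc : c ∈ N) : cen c ∈ interior (region N) := by
  rw [mem_interior]
  refine ⟨{x | (c.1 : ℝ) < x 0 ∧ x 0 < c.1 + 1 ∧ (c.2 : ℝ) < x 1 ∧ x 1 < c.2 + 1}, ?_, ?_, ?_⟩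
  · rintro x ⟨h1, h2, h3, h4⟩
    unfold region
    simp only [Set.mem_iUnion]
    exact ⟨c, hc, mem_sq ⟨h1.le, h2.le, h3.le, h4.le⟩⟩
  · have c0 : Continuous fun x : Plane => x 0 := by fun_prop
    have c1 : Continuous fun x : Plane => x 1 := by fun_prop
    exact (isOpen_lt continuous_const c0).inter ((isOpen_lt c0 continuous_const).inter
      ((isOpen_lt continuous_const c1).inter (isOpen_lt c1 continuous_const)))
  · refine ⟨?_, ?_, ?_, ?_⟩ <;> simp only [cen0, cen1] <;> linarith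

lemma cen_inj {c d : ℤ × ℤ} (h : cen c = cen d) : c = d := by
  have h0 := congrArg (fun x : Plane => x 0) h
  have h1 := congrArg (fun x : Plane => x 1) h
  simp only [cen0, cen1] at h0 h1
  ext
  · exact_mod_cast (by linarith : (c.1 : ℝ) = d.1)
  · exact_mod_cast (by linarith : (c.2 : ℝ) = d.2)

theorem IsEdgeNet.ef {N : Finset (ℤ × ℤ)} (h : IsEdgeNet N) : ∃ F, EF N F := by
  obtain ⟨_, _, f, _, _, hinj, hloc⟩ := h
  refine ⟨Fz f, fun c hc => (net_local (hloc c hc).1 (hloc c hc).2).1, fun c hc d hd hcd => ?_⟩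
  have h1 := (net_local (hloc c hc).1 (hloc c hc).2).2
  have h2 := (net_local (hloc d hd).1 (hloc d hd).2).2
  apply cen_inj
  apply hinj _ (cen_interior hc) _ (interior_subset (cen_interior hd))
  unfold ctr at hcd
  have e0 := congrArg Prod.fst hcd
  have e1 := congrArg (fun x => x.2.1) hcd
  have e2 := congrArg (fun x => x.2.2) hcd
  simp only [Prod.fst_add, Prod.snd_add] at e0 e1 e2
  ext j
  rw [h1, h2]
  fin_cases j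
  · simp only [Fin.zero_eta, Fin.isValue, toS_0]
    have : ((Fz f c).1 : ℝ) + (Fz f (c.1 + 1, c.2 + 1)).1 = (Fz f d).1 + (Fz f (d.1 + 1, d.2 + 1)).1 := by
      exact_mod_cast e0
    rw [this]
  · simp only [Fin.mk_one, Fin.isValue, toS_1]
    have : ((Fz f c).2.1 : ℝ) + (Fz f (c.1 + 1, c.2 + 1)).2.1 = (Fz f d).2.1 + (Fz f (d.1 + 1, d.2 + 1)).2.1 := by
      exact_mod_cast e1
    rw [this]
  · simp only [Fin.reduceFinMk, Fin.isValue, toS_2]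
    have : ((Fz f c).2.2 : ℝ) + (Fz f (c.1 + 1, c.2 + 1)).2.2 = (Fz f d).2.2 + (Fz f (d.1 + 1, d.2 + 1)).2.2 := by
      exact_mod_cast e2
    rw [this]

end Pool.Agent.V11205.URC
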