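import Mathlib
import Pool.Agent.V11205.URC.Data
import Pool.Agent.V11205.URC.Geo

/-! Every edge net admits a uniform rep-cube. -/

namespace Pool.Agent.V11205.URC

open Pool.Agent.Helper697.Rep

def certs : List Cert :=
  [cert0, cert1, cert2, cert3, cert4, cert5, cert6, cert7, cert8, cert9, cert10]

lemma certs_ok : ∀ c ∈ certs, c.ok := by
  intro c hc
  simp only [certs, List.mem_cons, List.not_mem_nil, or_false] at hc
  rcases hc with rfl | rfl | rfl | rfl | rfl | rfl | rfl | rfl | rfl | rfl | rfl
  · exact cert0_ok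
  · exact cert1_ok
  · exact cert2_ok
  · exact cert3_ok
  · exact cert4_ok
  · exact cert5_ok
  · exact cert6_ok
  · exact cert7_ok
  · exact cert8_ok
  · exact cert9_ok
  · exact cert10_ok

lemma table_certs : (table.all fun e => certs.any fun c => decide (c.N = e.N)) = true := by
  decide +kernel

theorem main (N : Finset (ℤ × ℤ)) (h : IsEdgeNet N) :
    ∃ (k : ℕ) (P : Finset (ℤ × ℤ)), IsUniformRepCube N k P := by
  obtain ⟨F, hF⟩ := h.ef
  obtain ⟨e, he, g, hg⟩ := classify h.1.1 hF h.2.1
  have h1 := table_certs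
  rw [List.all_eq_true] at h1
  have h2 := h1 e he
  rw [List.any_eq_true] at h2
  obtain ⟨c, hc, h3⟩ := h2
  rw [decide_eq_true_eq] at h3
  have h4 : Congruent (region c.N.toFinset) (region N) := by
    rw [h3, hg]
    exact (congr_image e.g e.N.toFinset).trans (congr_image g _)
  exact ⟨_, _, cert_sound (certs_ok c hc) h4⟩

end Pool.Agent.V11205.URC
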