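import Mathlib
import Pool.Agent.Y211.RC.Check
import Pool.Agent.V11205.URC.Sym

/-! Certificates of uniform rep-cubes. -/

namespace Pool.Agent.V11205.URC

open Pool.Agent.Helper697.Rep Pool.Agent.Y211.RC

/-- a piece: a folding onto the unit cube, the squares, the symmetry carrying the net to it, and
the boundary -/
structure PD where
  R : Rec
  L : List (ℤ × ℤ)
  g : Sym
  V : List (ℤ × ℤ)
  LC : List ℕ
  ZC : List ℕ
  VC : List ℕ

def PD.ok (N : List (ℤ × ℤ)) (p : PD) : Bool :=
  okB p.R p.L && (bdB p.L p.V p.LC p.ZC p.VC && (N.all (fun c => decide (p.g.cell c ∈ p.L)) &&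
    p.L.all (fun d => decide (d ∈ N.map p.g.cell))))

structure Cert where
  N : List (ℤ × ℤ)
  pcs : List PD
  R : Rec
  V : List (ℤ × ℤ)
  LC : List ℕ
  ZC : List ℕ
  VC : List ℕ

def Cert.cells (c : Cert) : List (ℤ × ℤ) := (c.pcs.map PD.L).flatten

def Cert.ok1 (c : Cert) : Bool := c.pcs.all (fun p => p.ok c.N)
def Cert.ok2 (c : Cert) : Bool := okB c.R c.cells && decide (2 ≤ c.pcs.length)
def Cert.ok3 (c : Cert) : Bool := bdB c.cells c.V c.LC c.ZC c.VC
def Cert.ok (c : Cert) : Prop := c.ok1 = true ∧ c.ok2 = true ∧ c.ok3 = true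

/-- what is required of a piece -/
def Good (N : Finset (ℤ × ℤ)) (A : Finset (ℤ × ℤ)) : Prop :=
  IsPoly A ∧ FoldsToCube A ∧ Congruent (region A) (region N)

lemma pd_good {N : List (ℤ × ℤ)} {p : PD} (h : p.ok N = true) {N' : Finset (ℤ × ℤ)}
    (hN : Congruent (region N.toFinset) (region N')) : Good N' p.L.toFinset := by
  simp only [PD.ok, Bool.and_eq_true, List.all_eq_true, decide_eq_true_eq] at h
  obtain ⟨h1, h2, h3, h4⟩ := h
  have h5 := (okB_piece h1).fin
  refine ⟨⟨h5.1, simpleBoundary_of h2⟩, h5.2, ?_⟩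
  have e : p.L.toFinset = N.toFinset.image p.g.cell := by
    ext d
    simp only [List.mem_toFinset, Finset.mem_image]
    constructor
    · intro hd
      obtain ⟨c, hc, h⟩ := List.mem_map.mp (h4 d hd)
      exact ⟨c, hc, h⟩
    · rintro ⟨c, hc, rfl⟩
      exact h3 c hc
  rw [e]
  exact (congr_image p.g N.toFinset).symm.trans hN

lemma parts {N' : Finset (ℤ × ℤ)} : ∀ (H : List PD), (∀ p ∈ H, Good N' p.L.toFinset) →
    ((H.map PD.L).flatten).Nodup →
    ∃ Q : Finset (Finset (ℤ × ℤ)), Q.card = H.length ∧ (∀ A ∈ Q, Good N' A) ∧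
      (∀ A ∈ Q, ∀ B ∈ Q, A ≠ B → Disjoint A B) ∧ Q.biUnion id = ((H.map PD.L).flatten).toFinset
  | [], _, _ => ⟨∅, rfl, by simp, by simp, by simp⟩
  | p :: H, h1, h2 => by
    simp only [List.map_cons, List.flatten_cons] at h2 ⊢
    obtain ⟨Q, q1, q2, q3, q4⟩ := parts H (fun k hk => h1 k (List.mem_cons_of_mem _ hk))
      (List.nodup_append'.mp h2).2.1
    have hd : Disjoint p.L.toFinset ((H.map PD.L).flatten).toFinset := by
      rw [List.disjoint_toFinset_iff_disjoint]
      exact (List.nodup_append'.mp h2).2.2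
    have hg := h1 p List.mem_cons_self
    have hsub : ∀ A ∈ Q, Disjoint p.L.toFinset A := by
      intro A hA
      refine hd.mono_right ?_
      rw [← q4]
      exact Finset.subset_biUnion_of_mem id hA
    have hnot : p.L.toFinset ∉ Q := by
      intro hmem
      have h3 := hsub _ hmem
      rw [Finset.disjoint_self_iff_empty] at h3
      have h4 := hg.1.1.1
      rw [h3] at h4
      exact absurd h4 (by simp)
    refine ⟨insert p.L.toFinset Q, ?_, ?_, ?_, ?_⟩
    · rw [Finset.card_insert_of_notMem hnot, q1, List.length_cons]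
    · intro A hA
      rcases Finset.mem_insert.mp hA with rfl | hA
      · exact hg
      · exact q2 A hA
    · intro A hA B hB hAB
      rcases Finset.mem_insert.mp hA with rfl | hA <;> rcases Finset.mem_insert.mp hB with rfl | hB
      · exact absurd rfl hAB
      · exact hsub B hB
      · exact (hsub A hA).symm
      · exact q3 A hA B hB hAB
    · rw [Finset.biUnion_insert, q4, List.toFinset_append]; rfl

theorem cert_sound {c : Cert} (h : c.ok) {N' : Finset (ℤ × ℤ)}
    (hN : Congruent (region c.N.toFinset) (region N')) :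
    IsUniformRepCube N' c.pcs.length c.cells.toFinset := by
  simp only [Cert.ok, Cert.ok1, Cert.ok2, Cert.ok3, Bool.and_eq_true, List.all_eq_true,
    decide_eq_true_eq] at h
  obtain ⟨h1, ⟨h2, h4⟩, h3⟩ := h
  have h5 := (okB_piece h2).fin
  obtain ⟨Q, q1, q2, q3, q4⟩ := parts c.pcs (fun p hp => pd_good (h1 p hp) hN) (okB_nodup h2)
  exact ⟨h4, ⟨h5.1, simpleBoundary_of h3⟩, h5.2, Q, q1, q2, q3, q4⟩

end Pool.Agent.V11205.URC
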